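import Mathlib

set_option autoImplicit false
set_option linter.unusedSectionVars false

open Finset

namespace Pool.Agent.H523R2

section binary

variable {G : Type*} [CommGroup G]

/-- `β i = α^(2^i)` -/
def bet (α : G) (i : ℕ) : G := α ^ (2 ^ i)

theorem bet_mul_self (α : G) (i : ℕ) : bet α i * bet α i = bet α (i + 1) := by
  unfold bet
  rw [← pow_add]; congr 1; rw [pow_succ]; ring

theorem bet_add_period {α : G} {m : ℕ} (hα : orderOf α = 2 ^ m - 1) (i : ℕ) :
    bet α (i + m) = bet α i := by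
  unfold bet
  have h1 : α ^ (2 ^ m) = α := by
    have h2 : 2 ^ m = (2 ^ m - 1) + 1 := by
      have := Nat.one_le_two_pow (n := m); omega
    rw [h2, pow_succ, ← hα, pow_orderOf_eq_one, one_mul]
  rw [pow_add, mul_comm, pow_mul, h1]

theorem bet_mod {α : G} {m : ℕ} (hα : orderOf α = 2 ^ m - 1) (i : ℕ) :
    bet α i = bet α (i % m) := by
  conv_lhs => rw [← Nat.mod_add_div i m]
  induction (i / m) with
  | zero => simp
  | succ k ih =>
    rw [Nat.mul_succ, ← add_assoc, bet_add_period hα, ih]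

theorem prod_bet (α : G) (A : Finset ℕ) : ∏ i ∈ A, bet α i = α ^ (∑ i ∈ A, 2 ^ i) := by
  unfold bet
  rw [Finset.prod_pow_eq_pow_sum]

theorem sum_lt {m : ℕ} {A : Finset ℕ} (hA : A ⊆ range m) (hc : A.card < m) :
    ∑ i ∈ A, 2 ^ i < 2 ^ m - 1 := by
  have h1 : ∑ i ∈ range m, 2 ^ i = 2 ^ m - 1 := by
    rw [Nat.geomSum_eq (le_refl 2)]; simp
  have hne : A ≠ range m := by
    intro h; rw [h, card_range] at hc; exact lt_irrefl _ hc
  have hss : A ⊂ range m := lt_of_le_of_ne hA hne
  rw [← h1]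
  obtain ⟨x, hx, hxA⟩ := Finset.exists_of_ssubset hss
  exact Finset.sum_lt_sum_of_subset hss.subset hx hxA (by positivity) (fun _ _ _ => Nat.zero_le _)

theorem prod_bet_inj {α : G} {m : ℕ} (hα : orderOf α = 2 ^ m - 1) {A B : Finset ℕ}
    (hA : A ⊆ range m) (hB : B ⊆ range m) (hAc : A.card < m) (hBc : B.card < m)
    (h : ∏ i ∈ A, bet α i = ∏ i ∈ B, bet α i) : A = B := by
  rw [prod_bet, prod_bet] at h
  have h1 := sum_lt hA hAc
  have h2 := sum_lt hB hBc
  rw [← hα] at h1 h2
  have h3 := pow_injOn_Iio_orderOf h1 h2 h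
  exact Finset.geomSum_injective (le_refl 2) h3

/-- rotation of a shape -/
def rot (m i : ℕ) (A : Finset ℕ) : Finset ℕ := A.image (fun a => (i + a) % m)

/-- the element with base point `i` and shape `A` -/
def elt (α : G) (i : ℕ) (A : Finset ℕ) : G := ∏ a ∈ A, bet α (i + a)

theorem addmod_inj {m i a b : ℕ} (ha : a < m) (hb : b < m) (h : (i + a) % m = (i + b) % m) : a = b := by
  have h1 : i + a ≡ i + b [MOD m] := h
  have h2 : a ≡ b [MOD m] := Nat.ModEq.add_left_cancel' i h1
  exact Nat.ModEq.eq_of_lt_of_lt h2 ha hb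

theorem rot_card {m i : ℕ} {A : Finset ℕ} (hA : A ⊆ range m) : (rot m i A).card = A.card := by
  unfold rot
  apply Finset.card_image_of_injOn
  intro a ha b hb h
  exact addmod_inj (mem_range.mp (hA ha)) (mem_range.mp (hA hb)) h

theorem rot_subset {m i : ℕ} (hm : 0 < m) (A : Finset ℕ) : rot m i A ⊆ range m := by
  intro x hx
  obtain ⟨a, _, rfl⟩ := mem_image.mp hx
  exact mem_range.mpr (Nat.mod_lt _ hm)

theorem elt_eq_prod_rot {α : G} {m : ℕ} (hα : orderOf α = 2 ^ m - 1) {i : ℕ} {A : Finset ℕ}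
    (hA : A ⊆ range m) : elt α i A = ∏ x ∈ rot m i A, bet α x := by
  unfold elt rot
  rw [Finset.prod_image]
  · apply Finset.prod_congr rfl
    intro a _
    exact bet_mod hα _
  · intro a ha b hb h
    exact addmod_inj (mem_range.mp (hA ha)) (mem_range.mp (hA hb)) h

theorem rot_of_elt_eq {α : G} {m : ℕ} (hm : 0 < m) (hα : orderOf α = 2 ^ m - 1) {i i' : ℕ}
    {A A' : Finset ℕ} (hA : A ⊆ range m) (hA' : A' ⊆ range m) (hc : A.card < m) (hc' : A'.card < m)
    (h : elt α i A = elt α i' A') : rot m i A = rot m i' A' := by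
  rw [elt_eq_prod_rot hα hA, elt_eq_prod_rot hα hA'] at h
  exact prod_bet_inj hα (rot_subset hm _) (rot_subset hm _) (by rw [rot_card hA]; exact hc)
    (by rw [rot_card hA']; exact hc') h

theorem rot_eq_iff {m i i' : ℕ} {A A' : Finset ℕ}
    (hA : A ⊆ range m) (hA' : A' ⊆ range m) (hi' : i' < m) (h0 : 0 ∈ A') (h : rot m i A = rot m i' A') :
    ∃ c ∈ A, i' = (i + c) % m ∧ A' = A.image (fun a => (a + (m - c)) % m) := by
  have h1 : i' ∈ rot m i' A' := mem_image.mpr ⟨0, h0, by rw [add_zero]; exact Nat.mod_eq_of_lt hi'⟩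
  rw [← h] at h1
  obtain ⟨c, hc, hci⟩ := mem_image.mp h1
  have hcm : c < m := mem_range.mp (hA hc)
  refine ⟨c, hc, hci.symm, ?_⟩
  ext x
  constructor
  · intro hx
    have hxm : x < m := mem_range.mp (hA' hx)
    have h2 : (i' + x) % m ∈ rot m i' A' := mem_image.mpr ⟨x, hx, rfl⟩
    rw [← h] at h2
    obtain ⟨a, ha, hax⟩ := mem_image.mp h2
    refine mem_image.mpr ⟨a, ha, ?_⟩
    have h3 : i + a ≡ i + c + x [MOD m] := by
      have h4 : i + a ≡ i' + x [MOD m] := hax
      have h5 : i' ≡ i + c [MOD m] := by rw [← hci]; exact Nat.mod_modEq _ _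
      exact h4.trans (Nat.ModEq.add_right x h5)
    have h6 : a ≡ c + x [MOD m] := by
      rw [add_assoc] at h3
      exact Nat.ModEq.add_left_cancel' i h3
    have h7 : a + (m - c) ≡ x [MOD m] := by
      have h8 : a + (m - c) ≡ c + x + (m - c) [MOD m] := Nat.ModEq.add_right _ h6
      have h9 : c + x + (m - c) = x + m := by omega
      rw [h9] at h8
      refine h8.trans ?_
      simp [Nat.ModEq]
    have h10 : (a + (m - c)) % m = x % m := h7
    rw [h10, Nat.mod_eq_of_lt hxm]
  · intro hx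
    obtain ⟨a, ha, hax⟩ := mem_image.mp hx
    have h2 : (i + a) % m ∈ rot m i A := mem_image.mpr ⟨a, ha, rfl⟩
    rw [h] at h2
    obtain ⟨y, hy, hya⟩ := mem_image.mp h2
    have hym : y < m := mem_range.mp (hA' hy)
    have h3 : i + c + y ≡ i + a [MOD m] := by
      have h4 : i' + y ≡ i + a [MOD m] := hya
      have h5 : i' ≡ i + c [MOD m] := by rw [← hci]; exact Nat.mod_modEq _ _
      exact (Nat.ModEq.add_right y h5.symm).trans h4
    have h6 : c + y ≡ a [MOD m] := by
      rw [add_assoc] at h3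
      exact Nat.ModEq.add_left_cancel' i h3
    have h7 : y ≡ a + (m - c) [MOD m] := by
      have h8 : c + y + (m - c) ≡ a + (m - c) [MOD m] := Nat.ModEq.add_right _ h6
      have h9 : c + y + (m - c) = y + m := by omega
      rw [h9] at h8
      refine Nat.ModEq.trans ?_ h8
      simp [Nat.ModEq]
    have h10 : y % m = (a + (m - c)) % m := h7
    rw [Nat.mod_eq_of_lt hym] at h10
    have h11 : (a + (m - c)) % m = x := hax
    rw [← h11, ← h10]
    exact hy

/-- the shapes for the narrow-sense BCH zero set, `m = 2t+1` -/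
def setB (t n : ℕ) : Finset ℕ :=
  if n = 0 then {0}
  else if n ≤ t then {0, n}
  else if n + 2 ≤ 3 * t then {0, 1, (n - t) + 1}
  else if n + 7 ≤ 5 * t then {0, 2, (n + 2 - 3 * t) + 3}
  else if n + 8 ≤ 6 * t then {0, 1, (n + 7 - 5 * t) + 1, (n + 7 - 5 * t) + 2}
  else if n + 10 ≤ 7 * t then {0, 2, (n + 8 - 6 * t) + 2, (n + 8 - 6 * t) + 4}
  else {0, 1, (n + 10 - 7 * t) + 1, (n + 10 - 7 * t) + 3}

theorem setB_cases {t n : ℕ} (ht : 4 ≤ t) (hn : n + 13 ≤ 9 * t) :
    (setB t n = {0} ∧ n = 0) ∨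
    (∃ a, 1 ≤ a ∧ a ≤ t ∧ setB t n = {0, a} ∧ n = a) ∨
    (∃ a b, 0 < a ∧ a < b ∧ b < 2 * t + 1 ∧ setB t n = {0, a, b} ∧
      ((a = 1 ∧ n + 1 = t + b ∧ 2 ≤ b ∧ b + 1 ≤ 2 * t) ∨
       (a = 2 ∧ n + 5 = 3 * t + b ∧ 4 ≤ b ∧ b + 2 ≤ 2 * t))) ∨
    (∃ a b c, 0 < a ∧ a < b ∧ b < c ∧ c < 2 * t + 1 ∧ setB t n = {0, a, b, c} ∧
      ((a = 1 ∧ c = b + 1 ∧ n + 8 = 5 * t + b ∧ 2 ≤ b ∧ b ≤ t) ∨
       (a = 2 ∧ c = b + 2 ∧ n + 10 = 6 * t + b ∧ 3 ≤ b ∧ b ≤ t) ∨
       (a = 1 ∧ c = b + 2 ∧ n + 11 = 7 * t + b ∧ 2 ≤ b ∧ b + 2 ≤ 2 * t))) := by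
  unfold setB
  split_ifs with h1 h2 h3 h4 h5 h6
  · left; exact ⟨rfl, h1⟩
  · right; left; exact ⟨n, by omega, h2, rfl, rfl⟩
  · right; right; left
    exact ⟨1, _, by omega, by omega, by omega, rfl, by omega⟩
  · right; right; left
    exact ⟨2, _, by omega, by omega, by omega, rfl, by omega⟩
  · right; right; right
    exact ⟨1, _, _, by omega, by omega, by omega, by omega, rfl, by omega⟩
  · right; right; right
    exact ⟨2, _, _, by omega, by omega, by omega, by omega, rfl, by omega⟩
  · right; right; right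
    exact ⟨1, _, _, by omega, by omega, by omega, by omega, rfl, by omega⟩

theorem sorted2 {a b : ℕ} (ha : 0 < a) (_hb : 0 < b) (h : ({0, a} : Finset ℕ) = {0, b}) : a = b := by
  have h1 : a ∈ ({0, b} : Finset ℕ) := by rw [← h]; simp
  simp only [mem_insert, mem_singleton] at h1
  omega

theorem sorted3 {a b a' b' : ℕ} (h1 : 0 < a) (h2 : a < b) (h1' : 0 < a') (h2' : a' < b')
    (h : ({0, a, b} : Finset ℕ) = {0, a', b'}) : a = a' ∧ b = b' := by
  have e1 : a ∈ ({0, a', b'} : Finset ℕ) := by rw [← h]; simp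
  have e2 : b ∈ ({0, a', b'} : Finset ℕ) := by rw [← h]; simp
  simp only [mem_insert, mem_singleton] at e1 e2
  omega

theorem sorted4 {a b c a' b' c' : ℕ} (h1 : 0 < a) (h2 : a < b) (h3 : b < c)
    (h1' : 0 < a') (h2' : a' < b') (h3' : b' < c')
    (h : ({0, a, b, c} : Finset ℕ) = {0, a', b', c'}) : a = a' ∧ b = b' ∧ c = c' := by
  have ea : a = a' := by
    have e1 : a ∈ ({0, a', b', c'} : Finset ℕ) := by rw [← h]; simp
    have e2 : a' ∈ ({0, a, b, c} : Finset ℕ) := by rw [h]; simp
    simp only [mem_insert, mem_singleton] at e1 e2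
    clear h
    omega
  subst ea
  have eb : b = b' := by
    have e1 : b ∈ ({0, a, b', c'} : Finset ℕ) := by rw [← h]; simp
    have e2 : b' ∈ ({0, a, b, c} : Finset ℕ) := by rw [h]; simp
    simp only [mem_insert, mem_singleton] at e1 e2
    clear h
    omega
  subst eb
  have ec : c = c' := by
    have e1 : c ∈ ({0, a, b, c'} : Finset ℕ) := by rw [← h]; simp
    simp only [mem_insert, mem_singleton] at e1
    clear h
    omega
  exact ⟨rfl, rfl, ec⟩

theorem card1 : ({0} : Finset ℕ).card = 1 := rfl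

theorem card2 {a : ℕ} (h1 : 0 < a) : ({0, a} : Finset ℕ).card = 2 := by
  rw [card_pair]; omega

theorem card3 {a b : ℕ} (h1 : 0 < a) (h2 : a < b) : ({0, a, b} : Finset ℕ).card = 3 := by
  rw [card_eq_three]
  exact ⟨0, a, b, by omega, by omega, by omega, rfl⟩

theorem card4 {a b c : ℕ} (h1 : 0 < a) (h2 : a < b) (h3 : b < c) :
    ({0, a, b, c} : Finset ℕ).card = 4 := by
  rw [card_insert_of_notMem, card_eq_three.mpr ⟨a, b, c, by omega, by omega, by omega, rfl⟩]
  simp only [mem_insert, mem_singleton]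
  omega

theorem setB_subset {t n : ℕ} (ht : 4 ≤ t) (hn : n + 13 ≤ 9 * t) : setB t n ⊆ range (2 * t + 1) := by
  intro x hx
  rw [mem_range]
  rcases setB_cases ht hn with ⟨h, _⟩ | ⟨a, h1, h2, h, _⟩ | ⟨a, b, h1, h2, h3, h, _⟩ |
    ⟨a, b, c, h1, h2, h3, h4, h, _⟩
  all_goals
    rw [h] at hx
    simp only [mem_insert, mem_singleton] at hx
    omega

theorem zero_mem_setB {t n : ℕ} (ht : 4 ≤ t) (hn : n + 13 ≤ 9 * t) : 0 ∈ setB t n := by
  rcases setB_cases ht hn with ⟨h, _⟩ | ⟨a, h1, h2, h, _⟩ | ⟨a, b, h1, h2, h3, h, _⟩ |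
    ⟨a, b, c, h1, h2, h3, h4, h, _⟩
  all_goals
    rw [h]
    simp

theorem setB_card_le {t n : ℕ} (ht : 4 ≤ t) (hn : n + 13 ≤ 9 * t) : (setB t n).card ≤ 4 := by
  rcases setB_cases ht hn with ⟨h, _⟩ | ⟨a, h1, h2, h, _⟩ | ⟨a, b, h1, h2, h3, h, _⟩ |
    ⟨a, b, c, h1, h2, h3, h4, h, _⟩
  · rw [h, card1]; omega
  · rw [h, card2 (by omega)]; omega
  · rw [h, card3 h1 h2]; omega
  · rw [h, card4 h1 h2 h3]

theorem mod_shift_zero {m c : ℕ} (hc0 : 0 < c) (hc : c < m) : (0 + (m - c)) % m = m - c := by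
  rw [zero_add]; exact Nat.mod_eq_of_lt (by omega)

theorem mod_shift_lt {m c a : ℕ} (hac : a < c) (hc : c < m) : (a + (m - c)) % m = m - c + a := by
  rw [Nat.mod_eq_of_lt (by omega)]; omega

theorem mod_shift_ge {m c a : ℕ} (hac : c ≤ a) (ha : a < m) : (a + (m - c)) % m = a - c := by
  have h1 : a + (m - c) = (a - c) + m := by omega
  rw [h1, Nat.add_mod_right]; exact Nat.mod_eq_of_lt (by omega)

/-- key injectivity: the shapes are pairwise inequivalent under rotation -/
theorem setB_rot {t n n' c : ℕ} (ht : 4 ≤ t) (hn : n + 13 ≤ 9 * t) (hn' : n' + 13 ≤ 9 * t)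
    (hc : c ∈ setB t n)
    (h : setB t n' = (setB t n).image (fun a => (a + (2 * t + 1 - c)) % (2 * t + 1))) :
    c = 0 ∧ n = n' := by
  have hcm : c < 2 * t + 1 := mem_range.mp (setB_subset ht hn hc)
  have hcard : (setB t n').card = (setB t n).card := by
    rw [h]
    apply card_image_of_injOn
    intro a ha b hb hab
    have hab' : ((2 * t + 1 - c) + a) % (2 * t + 1) = ((2 * t + 1 - c) + b) % (2 * t + 1) := by
      rw [add_comm _ a, add_comm _ b]; exact hab
    exact addmod_inj (mem_range.mp (setB_subset ht hn ha)) (mem_range.mp (setB_subset ht hn hb)) hab'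
  rcases setB_cases ht hn with ⟨e, q⟩ | ⟨a, h1, h2, e, q⟩ | ⟨a, b, h1, h2, h3, e, q⟩ |
    ⟨a, b, d, h1, h2, h3, h4, e, q⟩
  · rw [e] at hc hcard
    simp only [mem_singleton] at hc
    subst hc
    rw [card1] at hcard
    rcases setB_cases ht hn' with ⟨e', q'⟩ | ⟨a', h1', h2', e', q'⟩ | ⟨a', b', h1', h2', h3', e', q'⟩ |
      ⟨a', b', d', h1', h2', h3', h4', e', q'⟩
    · exact ⟨rfl, by omega⟩
    · rw [e', card2 (by omega)] at hcard; omega
    · rw [e', card3 h1' h2'] at hcard; omega
    · rw [e', card4 h1' h2' h3'] at hcard; omega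
  · rw [e] at hc hcard h
    simp only [mem_insert, mem_singleton] at hc
    rw [card2 (by omega)] at hcard
    rcases setB_cases ht hn' with ⟨e', q'⟩ | ⟨a', h1', h2', e', q'⟩ | ⟨a', b', h1', h2', h3', e', q'⟩ |
      ⟨a', b', d', h1', h2', h3', h4', e', q'⟩
    · rw [e', card1] at hcard; omega
    · rw [e'] at h
      rw [image_insert, image_singleton] at h
      rcases hc with rfl | rfl
      · rw [mod_shift_ge (le_refl 0) (by omega), mod_shift_ge (Nat.zero_le _) (by omega)] at h
        have := sorted2 (by omega) (by omega) h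
        omega
      · rw [mod_shift_zero (by omega) hcm, mod_shift_ge (le_refl _) hcm, Nat.sub_self] at h
        have h5 : ({2 * t + 1 - c, 0} : Finset ℕ) = {0, 2 * t + 1 - c} := by
          ext x; simp only [mem_insert, mem_singleton]; tauto
        rw [h5] at h
        have := sorted2 (by omega) (by omega) h
        omega
    · rw [e', card3 h1' h2'] at hcard; omega
    · rw [e', card4 h1' h2' h3'] at hcard; omega
  · rw [e] at hc hcard h
    simp only [mem_insert, mem_singleton] at hc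
    rw [card3 h1 h2] at hcard
    rcases setB_cases ht hn' with ⟨e', q'⟩ | ⟨a', h1', h2', e', q'⟩ | ⟨a', b', h1', h2', h3', e', q'⟩ |
      ⟨a', b', d', h1', h2', h3', h4', e', q'⟩
    · rw [e', card1] at hcard; omega
    · rw [e', card2 (by omega)] at hcard; omega
    · rw [e'] at h
      rw [image_insert, image_insert, image_singleton] at h
      rcases hc with rfl | rfl | rfl
      · rw [mod_shift_ge (le_refl 0) (by omega), mod_shift_ge (Nat.zero_le _) (by omega),
          mod_shift_ge (Nat.zero_le _) (by omega)] at h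
        have := sorted3 (by omega) (by omega) (by omega) (by omega) h
        omega
      · rw [mod_shift_zero (by omega) hcm, mod_shift_ge (le_refl _) hcm, Nat.sub_self,
          mod_shift_ge (by omega) (by omega)] at h
        have h5 : ({2 * t + 1 - c, 0, b - c} : Finset ℕ) = {0, b - c, 2 * t + 1 - c} := by
          ext x; simp only [mem_insert, mem_singleton]; tauto
        rw [h5] at h
        have := sorted3 (by omega) (by omega) (by omega) (by omega) h
        omega
      · rw [mod_shift_zero (by omega) hcm, mod_shift_ge (le_refl _) hcm, Nat.sub_self,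
          mod_shift_lt (by omega) (by omega)] at h
        have h5 : ({2 * t + 1 - c, 2 * t + 1 - c + a, 0} : Finset ℕ) = {0, 2 * t + 1 - c, 2 * t + 1 - c + a} := by
          ext x; simp only [mem_insert, mem_singleton]; tauto
        rw [h5] at h
        have := sorted3 (by omega) (by omega) (by omega) (by omega) h
        omega
    · rw [e', card4 h1' h2' h3'] at hcard; omega
  · rw [e] at hc hcard h
    simp only [mem_insert, mem_singleton] at hc
    rw [card4 h1 h2 h3] at hcard
    rcases setB_cases ht hn' with ⟨e', q'⟩ | ⟨a', h1', h2', e', q'⟩ | ⟨a', b', h1', h2', h3', e', q'⟩ |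
      ⟨a', b', d', h1', h2', h3', h4', e', q'⟩
    · rw [e', card1] at hcard; omega
    · rw [e', card2 (by omega)] at hcard; omega
    · rw [e', card3 h1' h2'] at hcard; omega
    · rw [e'] at h
      rw [image_insert, image_insert, image_insert, image_singleton] at h
      rcases hc with rfl | rfl | rfl | rfl
      · rw [mod_shift_ge (le_refl 0) (by omega), mod_shift_ge (Nat.zero_le _) (by omega),
          mod_shift_ge (Nat.zero_le _) (by omega), mod_shift_ge (Nat.zero_le _) (by omega)] at h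
        have := sorted4 (by omega) (by omega) (by omega) (by omega) (by omega) (by omega) h
        omega
      · rw [mod_shift_zero (by omega) hcm, mod_shift_ge (le_refl _) hcm, Nat.sub_self,
          mod_shift_ge (by omega) (by omega), mod_shift_ge (by omega) (by omega)] at h
        have h5 : ({2 * t + 1 - c, 0, b - c, d - c} : Finset ℕ) = {0, b - c, d - c, 2 * t + 1 - c} := by
          ext x; simp only [mem_insert, mem_singleton]; tauto
        rw [h5] at h
        have := sorted4 (by omega) (by omega) (by omega) (by omega) (by omega) (by omega) h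
        omega
      · rw [mod_shift_zero (by omega) hcm, mod_shift_ge (le_refl _) hcm, Nat.sub_self,
          mod_shift_lt (by omega) (by omega), mod_shift_ge (by omega) (by omega)] at h
        have h5 : ({2 * t + 1 - c, 2 * t + 1 - c + a, 0, d - c} : Finset ℕ)
            = {0, d - c, 2 * t + 1 - c, 2 * t + 1 - c + a} := by
          ext x; simp only [mem_insert, mem_singleton]; tauto
        rw [h5] at h
        have := sorted4 (by omega) (by omega) (by omega) (by omega) (by omega) (by omega) h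
        omega
      · rw [mod_shift_zero (by omega) hcm, mod_shift_ge (le_refl _) hcm, Nat.sub_self,
          mod_shift_lt (by omega) (by omega), mod_shift_lt (by omega) (by omega)] at h
        have h5 : ({2 * t + 1 - c, 2 * t + 1 - c + a, 2 * t + 1 - c + b, 0} : Finset ℕ)
            = {0, 2 * t + 1 - c, 2 * t + 1 - c + a, 2 * t + 1 - c + b} := by
          ext x; simp only [mem_insert, mem_singleton]; tauto
        rw [h5] at h
        have := sorted4 (by omega) (by omega) (by omega) (by omega) (by omega) (by omega) h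
        omega

theorem elt2 (α : G) (i : ℕ) {a : ℕ} (ha : 0 < a) :
    elt α i {0, a} = bet α i * bet α (i + a) := by
  unfold elt
  rw [prod_pair (by omega)]
  rfl

theorem elt3 (α : G) (i : ℕ) {a b : ℕ} (ha : 0 < a) (hb : a < b) :
    elt α i {0, a, b} = bet α i * (bet α (i + a) * bet α (i + b)) := by
  unfold elt
  rw [prod_insert (by simp only [mem_insert, mem_singleton]; omega), prod_pair (by omega)]
  rfl

theorem elt4 (α : G) (i : ℕ) {a b c : ℕ} (ha : 0 < a) (hb : a < b) (hc : b < c) :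
    elt α i {0, a, b, c} = bet α i * (bet α (i + a) * (bet α (i + b) * bet α (i + c))) := by
  unfold elt
  rw [prod_insert (by simp only [mem_insert, mem_singleton]; omega),
    prod_insert (by simp only [mem_insert, mem_singleton]; omega), prod_pair (by omega)]
  rfl

open scoped Pointwise in
theorem lower_bound [DecidableEq G] {α : G} {t : ℕ} (ht : 4 ≤ t) (hα : orderOf α = 2 ^ (2 * t + 1) - 1)
    (P : Finset G) (h0 : ∀ i, bet α i ∈ P) (h1 : ∀ i, bet α i * bet α (i + 1) ∈ P)
    (h2 : ∀ i, bet α i * bet α (i + 2) ∈ P) :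
    (2 * t + 1) * (9 * t - 12) ≤ (P * P).card := by
  have hcard : ((range (2 * t + 1)) ×ˢ (range (9 * t - 12))).card = (2 * t + 1) * (9 * t - 12) := by
    rw [card_product, card_range, card_range]
  rw [← hcard]
  apply Finset.card_le_card_of_injOn (fun p : ℕ × ℕ => elt α p.1 (setB t p.2))
  · rintro ⟨i, n⟩ hp
    simp only [coe_product, coe_range, Set.mem_prod, Set.mem_Iio] at hp
    have hn : n + 13 ≤ 9 * t := by omega
    change elt α i (setB t n) ∈ ((P * P : Finset G) : Set G)
    rw [mem_coe]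
    rcases setB_cases ht hn with ⟨e, q⟩ | ⟨a, g1, g2, e, q⟩ | ⟨a, b, g1, g2, g3, e, q⟩ |
      ⟨a, b, d, g1, g2, g3, g4, e, q⟩
    · rw [e]
      have e1 : elt α i {0} = bet α (i + 2 * t) * bet α (i + 2 * t) := by
        unfold elt
        rw [prod_singleton, bet_mul_self, add_zero, ← bet_add_period hα]
        rfl
      rw [e1]
      exact mul_mem_mul (h0 _) (h0 _)
    · rw [e, elt2 α i (by omega)]
      exact mul_mem_mul (h0 _) (h0 _)
    · rw [e, elt3 α i g1 g2, ← mul_assoc]
      apply mul_mem_mul _ (h0 _)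
      rcases q with q | q
      · obtain ⟨rfl, _⟩ := q; exact h1 _
      · obtain ⟨rfl, _⟩ := q; exact h2 _
    · rw [e, elt4 α i g1 g2 g3, ← mul_assoc]
      rcases q with q | q | q
      · obtain ⟨rfl, rfl, _⟩ := q; exact mul_mem_mul (h1 _) (h1 _)
      · obtain ⟨rfl, rfl, _⟩ := q; exact mul_mem_mul (h2 _) (h2 _)
      · obtain ⟨rfl, rfl, _⟩ := q; exact mul_mem_mul (h1 _) (h2 _)
  · rintro ⟨i, n⟩ hp ⟨i', n'⟩ hp' heq
    simp only [coe_product, coe_range, Set.mem_prod, Set.mem_Iio] at hp hp'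
    have hn : n + 13 ≤ 9 * t := by omega
    have hn' : n' + 13 ≤ 9 * t := by omega
    have heq' : elt α i (setB t n) = elt α i' (setB t n') := heq
    have hr := rot_of_elt_eq (by omega) hα (setB_subset ht hn) (setB_subset ht hn')
      (lt_of_le_of_lt (setB_card_le ht hn) (by omega)) (lt_of_le_of_lt (setB_card_le ht hn') (by omega)) heq'
    obtain ⟨c, hc, hci, hA⟩ := rot_eq_iff (setB_subset ht hn) (setB_subset ht hn') hp'.1
      (zero_mem_setB ht hn') hr
    obtain ⟨rfl, hnn⟩ := setB_rot ht hn hn' hc hA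
    rw [add_zero, Nat.mod_eq_of_lt hp.1] at hci
    rw [hci, hnn]

end binary

end Pool.Agent.H523R2
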