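import Mathlib

set_option autoImplicit false
set_option linter.unusedSectionVars false

open Polynomial

namespace Pool.Agent.H523R2

section general

variable {K : Type*} [Field K] [Fintype K] [Algebra (ZMod 2) K]

/-- the vector `(1, x, x^2, …, x^(n-1))` -/
def ev (n : ℕ) (x : Kˣ) : Fin n → K := fun j => (x : K) ^ (j : ℕ)

/-- the binary words of length `n` whose polynomial vanishes on `S` -/
def zeroCode (n : ℕ) (S : Set Kˣ) : Set (Fin n → ZMod 2) :=
  {c | ∀ x ∈ S, ∑ j : Fin n, algebraMap (ZMod 2) K (c j) * (x : K) ^ (j : ℕ) = 0}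

/-- inverse transform -/
noncomputable def hat {n : ℕ} (w : Fin n → K) (x : Kˣ) : K :=
  ∑ j : Fin n, w j * ((x⁻¹ : Kˣ) : K) ^ (j : ℕ)

omit [Fintype K] in
theorem charP2 : CharP K 2 := charP_of_injective_algebraMap (algebraMap (ZMod 2) K).injective 2

theorem card_cast {n : ℕ} (hn : n + 1 = Fintype.card K) : (n : K) = 1 := by
  have : CharP K 2 := charP2
  have h1 : ((Fintype.card K : ℕ) : K) = 0 := FiniteField.cast_card_eq_zero K
  rw [← hn] at h1
  push_cast at h1
  have h2 : (n : K) = -1 := by linear_combination h1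
  rw [h2, CharTwo.neg_eq]

theorem pow_n_eq_one {n : ℕ} (hn : n + 1 = Fintype.card K) (x : Kˣ) : x ^ n = 1 := by
  classical
  have h := FiniteField.pow_card_sub_one_eq_one (x : K) x.ne_zero
  have h2 : Fintype.card K - 1 = n := by omega
  rw [h2] at h
  ext
  push_cast
  exact h

theorem sum_pow_fin {n : ℕ} (hn : n + 1 = Fintype.card K) (x : Kˣ) [Decidable (x = 1)] :
    ∑ j : Fin n, (x : K) ^ (j : ℕ) = if x = 1 then 1 else 0 := by
  split_ifs with h
  · subst h
    simp [card_cast hn]
  · rw [Fin.sum_univ_eq_sum_range (fun j => (x : K) ^ j) n]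
    have h1 : (x : K) ≠ 1 := fun h' => h (Units.ext h')
    have h2 : (x : K) - 1 ≠ 0 := sub_ne_zero.mpr h1
    have h3 := geom_sum_mul (x : K) n
    have h4 : (x : K) ^ n = 1 := by
      have := pow_n_eq_one hn x
      rw [← Units.val_pow_eq_pow_val, this]; rfl
    rw [h4, sub_self] at h3
    exact (mul_eq_zero.mp h3).resolve_right h2

theorem hat_ev {n : ℕ} (hn : n + 1 = Fintype.card K) (x y : Kˣ) [Decidable (x = y)] :
    hat (ev n x) y = if x = y then 1 else 0 := by
  classical
  unfold hat ev
  have h1 : ∀ j : Fin n, (x : K) ^ (j : ℕ) * ((y⁻¹ : Kˣ) : K) ^ (j : ℕ)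
      = ((x * y⁻¹ : Kˣ) : K) ^ (j : ℕ) := by
    intro j
    rw [← mul_pow]; push_cast; rfl
  simp_rw [h1]
  rw [sum_pow_fin hn]
  simp only [mul_inv_eq_one]

omit [Fintype K] [Algebra (ZMod 2) K] in
theorem hat_add {n : ℕ} (v w : Fin n → K) (x : Kˣ) : hat (v + w) x = hat v x + hat w x := by
  simp [hat, add_mul, Finset.sum_add_distrib]

omit [Fintype K] [Algebra (ZMod 2) K] in
theorem hat_smul {n : ℕ} (a : K) (w : Fin n → K) (x : Kˣ) : hat (a • w) x = a * hat w x := by
  simp [hat, Finset.mul_sum, mul_assoc]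

/-- the transform at `x` as a linear functional -/
noncomputable def hatL (n : ℕ) (x : Kˣ) : (Fin n → K) →ₗ[K] K where
  toFun w := hat w x
  map_add' v w := hat_add v w x
  map_smul' a w := by simp [hat_smul]

theorem inversion [DecidableEq K] {n : ℕ} (hn : n + 1 = Fintype.card K) (w : Fin n → K) :
    w = ∑ x : Kˣ, hat w x • ev n x := by
  have : CharP K 2 := charP2
  funext j
  simp only [Finset.sum_apply, Pi.smul_apply, smul_eq_mul]
  unfold hat ev
  simp_rw [Finset.sum_mul]
  rw [Finset.sum_comm]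
  have key : ∀ i : Fin n, ∑ x : Kˣ, w i * ((x⁻¹ : Kˣ) : K) ^ (i : ℕ) * (x : K) ^ (j : ℕ)
      = if i = j then w i else 0 := by
    intro i
    have h1 : ∀ x : Kˣ, w i * ((x⁻¹ : Kˣ) : K) ^ (i : ℕ) * (x : K) ^ (j : ℕ)
        = w i * (x : K) ^ ((n - i) + j) := by
      intro x
      have h2 : ((x⁻¹ : Kˣ) : K) ^ (i : ℕ) = (x : K) ^ (n - i) := by
        rw [← Units.val_pow_eq_pow_val, ← Units.val_pow_eq_pow_val]
        congr 1
        rw [inv_pow, inv_eq_iff_mul_eq_one, ← pow_add]
        have : (i : ℕ) + (n - i) = n := by omega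
        rw [this]
        exact pow_n_eq_one hn x
      rw [h2, pow_add]; ring
    simp_rw [h1]
    rw [← Finset.mul_sum, FiniteField.sum_pow_units]
    have h3 : Fintype.card K - 1 = n := by omega
    rw [h3]
    split_ifs with h4 h5 h5
    · rw [CharTwo.neg_eq, mul_one]
    · exfalso
      apply h5
      have hi := i.isLt
      have hj := j.isLt
      obtain ⟨k, hk⟩ := h4
      have hk1 : k = 1 := by
        have : n - i + j < n * 2 := by omega
        have h6 : n * k < n * 2 := by omega
        have h7 : k < 2 := lt_of_mul_lt_mul_left h6 (Nat.zero_le _)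
        have h8 : k ≠ 0 := by
          rintro rfl
          omega
        omega
      subst hk1
      apply Fin.ext
      omega
    · exfalso
      apply h4
      subst h5
      have hi := i.isLt
      exact ⟨1, by omega⟩
    · simp
  simp_rw [key]
  simp

theorem linIndep_ev [DecidableEq K] {n : ℕ} (hn : n + 1 = Fintype.card K) :
    LinearIndependent K (fun x : Kˣ => ev n x) := by
  rw [Fintype.linearIndependent_iff]
  intro g hg y
  have h := congrArg (hatL n y) hg
  rw [map_sum, map_zero] at h
  have h2 : ∀ x : Kˣ, hatL n y (g x • ev n x) = if x = y then g x else 0 := by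
    intro x
    rw [map_smul]
    change g x • hat (ev n x) y = _
    rw [hat_ev hn]
    split_ifs <;> simp
  simp_rw [h2] at h
  simpa using h

omit [Fintype K] [Algebra (ZMod 2) K] in
theorem ev_mul (n : ℕ) (x y : Kˣ) : ev n x * ev n y = ev n (x * y) := by
  funext j
  simp [ev, mul_pow]

/-- span of the vectors `ev x`, `x ∈ S` -/
def W (n : ℕ) (S : Finset Kˣ) : Submodule K (Fin n → K) :=
  Submodule.span K ((fun x => ev n x) '' (S : Set Kˣ))

open scoped Pointwise in
theorem W_mul [DecidableEq K] (n : ℕ) (S T : Finset Kˣ) : W n S * W n T = W n (S * T) := by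
  unfold W
  rw [Submodule.span_mul_span]
  congr 1
  ext v
  simp only [Set.mem_mul, Set.mem_image, Finset.mem_coe, Finset.mem_mul]
  constructor
  · rintro ⟨_, ⟨x, hx, rfl⟩, _, ⟨y, hy, rfl⟩, rfl⟩
    exact ⟨x * y, ⟨x, hx, y, hy, rfl⟩, (ev_mul n x y).symm⟩
  · rintro ⟨_, ⟨x, hx, y, hy, rfl⟩, rfl⟩
    exact ⟨ev n x, ⟨x, hx, rfl⟩, ev n y, ⟨y, hy, rfl⟩, ev_mul n x y⟩

theorem finrank_W [DecidableEq K] {n : ℕ} (hn : n + 1 = Fintype.card K) (S : Finset Kˣ) :
    Module.finrank K (W n S) = S.card := by
  have h := linIndep_ev (K := K) hn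
  have h2 : LinearIndependent K (fun x : (S : Set Kˣ) => ev n (x : Kˣ)) :=
    h.comp (fun x : (S : Set Kˣ) => (x : Kˣ)) Subtype.val_injective
  have h3 := finrank_span_eq_card h2
  unfold W
  have h4 : Set.range (fun x : (S : Set Kˣ) => ev n (x : Kˣ)) = (fun x => ev n x) '' (S : Set Kˣ) := by
    ext v; simp
  rw [h4] at h3
  rw [h3]
  simp

theorem mem_W_iff [DecidableEq K] {n : ℕ} (hn : n + 1 = Fintype.card K) (S : Finset Kˣ)
    (w : Fin n → K) : w ∈ W n S ↔ ∀ x : Kˣ, x ∉ S → hat w x = 0 := by
  constructor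
  · intro hw x hx
    unfold W at hw
    induction hw using Submodule.span_induction with
    | mem v hv =>
      obtain ⟨y, hy, rfl⟩ := hv
      rw [hat_ev hn]
      rw [if_neg]
      rintro rfl
      exact hx hy
    | zero => simp [hat]
    | add v w _ _ h1 h2 => rw [hat_add, h1, h2, add_zero]
    | smul a v _ h => rw [hat_smul, h, mul_zero]
  · intro h
    rw [inversion hn w]
    apply Submodule.sum_mem
    intro x _
    by_cases hx : x ∈ S
    · apply Submodule.smul_mem
      exact Submodule.subset_span ⟨x, hx, rfl⟩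
    · rw [h x hx, zero_smul]
      exact Submodule.zero_mem _

theorem mem_of_sq_pow_mem [DecidableEq K] {S : Finset Kˣ} (hS : ∀ x ∈ S, x ^ 2 ∈ S) (u : Kˣ) (k : ℕ)
    (h : u ^ (2 ^ k) ∈ S) : u ∈ S := by
  -- closure under squares implies closure under square roots as the group is finite
  have hinj : Function.Injective (fun x : Kˣ => x ^ 2) := by
    have : CharP K 2 := charP2
    intro x y hxy
    have h1 : (x : K) ^ 2 = (y : K) ^ 2 := by
      have := congrArg (Units.val) hxy
      simpa using this
    have h2 : ((x : K) - y) ^ 2 = 0 := by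
      rw [CharTwo.sub_eq_add, CharTwo.add_sq, h1, CharTwo.add_self_eq_zero]
    have h3 : (x : K) - y = 0 := by simpa using h2
    exact Units.ext (sub_eq_zero.mp h3)
  have himg : S.image (fun x : Kˣ => x ^ 2) = S := by
    apply Finset.eq_of_subset_of_card_le
    · intro y hy
      obtain ⟨x, hx, rfl⟩ := Finset.mem_image.mp hy
      exact hS x hx
    · rw [Finset.card_image_of_injective _ hinj]
  have hroot : ∀ x : Kˣ, x ^ 2 ∈ S → x ∈ S := by
    intro x hx
    rw [← himg] at hx
    obtain ⟨y, hy, hyx⟩ := Finset.mem_image.mp hx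
    have := hinj hyx
    rwa [← this]
  induction k with
  | zero => simpa using h
  | succ k ih =>
    apply ih
    apply hroot
    rw [← pow_mul, ← pow_succ]
    exact h

/-- The `K`-annihilator of the binary code with zero set `S` is the span of the `ev x`, `x ∈ S`. -/
theorem mem_W_iff_annihilates [DecidableEq K] {n : ℕ} (hn : n + 1 = Fintype.card K)
    (S : Finset Kˣ) (hS : ∀ x ∈ S, x ^ 2 ∈ S) (w : Fin n → K) :
    w ∈ W n S ↔ ∀ c ∈ zeroCode n (S : Set Kˣ), ∑ j, w j * algebraMap (ZMod 2) K (c j) = 0 := by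
  have : CharP K 2 := charP2
  constructor
  · intro hw c hc
    unfold W at hw
    induction hw using Submodule.span_induction with
    | mem v hv =>
      obtain ⟨y, hy, rfl⟩ := hv
      have := hc y hy
      rw [← this]
      apply Finset.sum_congr rfl
      intro j _
      simp only [ev]
      ring
    | zero => simp
    | add v w _ _ h1 h2 =>
      simp only [Pi.add_apply, add_mul, Finset.sum_add_distrib, h1, h2, add_zero]
    | smul a v _ h =>
      simp only [Pi.smul_apply, smul_eq_mul, mul_assoc, ← Finset.mul_sum, h, mul_zero]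
  · intro h
    rw [mem_W_iff hn]
    intro u hu
    set m := Module.finrank (ZMod 2) K with hm
    have hcardK : Fintype.card K = 2 ^ m := by
      rw [Module.card_eq_pow_finrank (K := ZMod 2) (V := K)]
      simp [hm]
    -- test words
    have htest : ∀ a : K, (fun j : Fin n => Algebra.trace (ZMod 2) K (a * ((u⁻¹ : Kˣ) : K) ^ (j : ℕ)))
        ∈ zeroCode n (S : Set Kˣ) := by
      intro a x hx
      have hx' : x ∈ S := hx
      simp only [FiniteField.algebraMap_trace_eq_sum_pow]
      rw [← hm]
      simp only [Nat.card_zmod]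
      simp_rw [Finset.sum_mul]
      rw [Finset.sum_comm]
      apply Finset.sum_eq_zero
      intro k _
      have h1 : ∀ j : Fin n, (a * ((u⁻¹ : Kˣ) : K) ^ (j : ℕ)) ^ 2 ^ k * (x : K) ^ (j : ℕ)
          = a ^ 2 ^ k * ((x * (u⁻¹) ^ (2 ^ k) : Kˣ) : K) ^ (j : ℕ) := by
        intro j
        push_cast
        rw [mul_pow, mul_pow]
        ring
      simp_rw [h1]
      rw [← Finset.mul_sum, sum_pow_fin hn, if_neg, mul_zero]
      intro h2
      apply hu
      apply mem_of_sq_pow_mem hS u k
      have h3 : x = u ^ 2 ^ k := by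
        rw [inv_pow, mul_inv_eq_one] at h2
        exact h2
      rwa [← h3]
    -- the polynomial
    let b : ℕ → K := fun k => ∑ j : Fin n, w j * (((u⁻¹ : Kˣ) : K) ^ (j : ℕ)) ^ 2 ^ k
    let P : K[X] := ∑ k ∈ Finset.range m, C (b k) * X ^ (2 ^ k)
    have hroot : ∀ a : K, P.eval a = 0 := by
      intro a
      have h1 := h _ (htest a)
      simp only [FiniteField.algebraMap_trace_eq_sum_pow] at h1
      rw [← hm] at h1
      simp only [Nat.card_zmod] at h1
      rw [← h1]
      simp only [P, eval_finsetSum, eval_mul, eval_C, eval_pow, eval_X]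
      simp_rw [Finset.mul_sum]
      rw [Finset.sum_comm]
      apply Finset.sum_congr rfl
      intro k _
      simp only [b]
      rw [Finset.sum_mul]
      apply Finset.sum_congr rfl
      intro j _
      rw [mul_pow]
      ring
    have hmpos : 0 < m := Module.finrank_pos
    have hdeg : P.natDegree < Fintype.card K := by
      rw [hcardK]
      have h2 : P.natDegree ≤ 2 ^ (m - 1) := by
        apply natDegree_sum_le_of_forall_le
        intro k hk
        have hk' := Finset.mem_range.mp hk
        refine (natDegree_C_mul_X_pow_le _ _).trans ?_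
        exact Nat.pow_le_pow_right (by norm_num) (by omega)
      refine lt_of_le_of_lt h2 ?_
      exact Nat.pow_lt_pow_right (by norm_num) (by omega)
    have hP0 : P = 0 := by
      apply Polynomial.eq_zero_of_natDegree_lt_card_of_eval_eq_zero' P Finset.univ
      · intro a _; exact hroot a
      · simpa using hdeg
    have hcoef : P.coeff 1 = b 0 := by
      simp only [P, finsetSum_coeff, coeff_C_mul, coeff_X_pow]
      rw [Finset.sum_eq_single 0]
      · simp
      · intro k _ hk
        have : 1 ≠ 2 ^ k := by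
          have : 1 < 2 ^ k := Nat.one_lt_pow hk (by norm_num)
          omega
        rw [if_neg this, mul_zero]
      · intro h'
        exact absurd (Finset.mem_range.mpr hmpos) h'
    rw [hP0, coeff_zero] at hcoef
    have : b 0 = hat w u := by
      simp [b, hat]
    rw [← this, ← hcoef]

/-- permuting the coordinates as an algebra automorphism -/
def permAlg {n : ℕ} (σ : Equiv.Perm (Fin n)) : (Fin n → K) ≃ₐ[K] (Fin n → K) :=
  AlgEquiv.ofLinearEquiv (LinearEquiv.funCongrLeft K K σ) rfl (fun _ _ => rfl)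

omit [Fintype K] [Algebra (ZMod 2) K] in
@[simp] theorem permAlg_apply {n : ℕ} (σ : Equiv.Perm (Fin n)) (w : Fin n → K) (j : Fin n) :
    permAlg σ w j = w (σ j) := rfl

/-- If a coordinate permutation carries one code to the other it carries one span to the other. -/
theorem map_W_of_equiv [DecidableEq K] {n : ℕ} (hn : n + 1 = Fintype.card K)
    (S T : Finset Kˣ) (hS : ∀ x ∈ S, x ^ 2 ∈ S) (hT : ∀ x ∈ T, x ^ 2 ∈ T)
    (σ : Equiv.Perm (Fin n))
    (h : ∀ c : Fin n → ZMod 2, c ∈ zeroCode n (S : Set Kˣ) ↔ (fun j => c (σ j)) ∈ zeroCode n (T : Set Kˣ)) :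
    (W n S).map ((permAlg (K := K) σ).toLinearEquiv : (Fin n → K) →ₗ[K] (Fin n → K)) = W n T := by
  have key : ∀ w : Fin n → K, w ∈ W n S ↔ permAlg σ w ∈ W n T := by
    intro w
    rw [mem_W_iff_annihilates hn S hS, mem_W_iff_annihilates hn T hT]
    constructor
    · intro hw c hc
      have h1 : (fun j => c (σ.symm j)) ∈ zeroCode n (S : Set Kˣ) := by
        rw [h]; simpa using hc
      have h2 := hw _ h1
      rw [← h2]
      rw [← Equiv.sum_comp σ (fun j => w j * (algebraMap (ZMod 2) K) (c ((Equiv.symm σ) j)))]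
      simp
    · intro hw c hc
      have h2 := hw _ ((h c).mp hc)
      rw [← h2]
      rw [← Equiv.sum_comp σ (fun j => w j * (algebraMap (ZMod 2) K) (c j))]
      simp
  ext v
  rw [Submodule.mem_map]
  constructor
  · rintro ⟨w, hw, rfl⟩
    exact (key w).mp hw
  · intro hv
    refine ⟨(permAlg σ).symm v, ?_, ?_⟩
    · rw [key]
      simpa using hv
    · simp

open scoped Pointwise in
/-- the invariant: equivalent codes have `|S * S| = |T * T|` -/
theorem card_mul_eq_of_equiv [DecidableEq K] {n : ℕ} (hn : n + 1 = Fintype.card K)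
    (S T : Finset Kˣ) (hS : ∀ x ∈ S, x ^ 2 ∈ S) (hT : ∀ x ∈ T, x ^ 2 ∈ T)
    (σ : Equiv.Perm (Fin n))
    (h : ∀ c : Fin n → ZMod 2, c ∈ zeroCode n (S : Set Kˣ) ↔ (fun j => c (σ j)) ∈ zeroCode n (T : Set Kˣ)) :
    (S * S).card = (T * T).card := by
  have h1 := map_W_of_equiv hn S T hS hT σ h
  rw [← finrank_W hn, ← finrank_W hn, ← W_mul, ← W_mul, ← h1]
  have h2 : ((W n S * W n S).map ((permAlg (K := K) σ).toLinearEquiv : (Fin n → K) →ₗ[K] (Fin n → K)))
      = (W n S).map ((permAlg (K := K) σ).toLinearEquiv : (Fin n → K) →ₗ[K] (Fin n → K))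
        * (W n S).map ((permAlg (K := K) σ).toLinearEquiv : (Fin n → K) →ₗ[K] (Fin n → K)) :=
    Submodule.map_mul (W n S) (W n S) (permAlg (K := K) σ).toAlgHom
  rw [← h2]
  exact (LinearEquiv.finrank_map_eq (permAlg (K := K) σ).toLinearEquiv _).symm

end general

end Pool.Agent.H523R2
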