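import Pool.Agent.H523R2.CycDefs
import Pool.Agent.H523R2.CycSpan
import Pool.Agent.H523R2.CombLower

set_option autoImplicit false
set_option linter.unusedSectionVars false

open Polynomial

namespace Pool.Agent.H523R2

theorem mem_cyclicCode_iff {n : ℕ} {g : (ZMod 2)[X]} (hg : g ∣ X ^ n - 1) (c : Fin n → ZMod 2) :
    c ∈ cyclicCode n g ↔ g ∣ wordPoly c := by
  constructor
  · rintro ⟨z, hz⟩
    obtain ⟨a, rfl⟩ := AdjoinRoot.mk_surjective z
    rw [← map_mul, AdjoinRoot.mk_eq_mk] at hz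
    have h1 := dvd_trans hg hz
    have h2 : wordPoly c = (wordPoly c - g * a) + g * a := by ring
    rw [h2]
    exact dvd_add h1 (dvd_mul_right g a)
  · intro h
    exact map_dvd (AdjoinRoot.mk (X ^ n - 1 : (ZMod 2)[X])) h

section

variable {K : Type*} [Field K] [Fintype K] [Algebra (ZMod 2) K]

theorem aeval_wordPoly {n : ℕ} (c : Fin n → ZMod 2) (x : K) :
    aeval x (wordPoly c) = ∑ j : Fin n, algebraMap (ZMod 2) K (c j) * x ^ (j : ℕ) := by
  simp [wordPoly, map_sum]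

theorem sum_sq {n : ℕ} (c : Fin n → ZMod 2) (x : K) :
    ∑ j : Fin n, algebraMap (ZMod 2) K (c j) * (x ^ 2) ^ (j : ℕ)
      = (∑ j : Fin n, algebraMap (ZMod 2) K (c j) * x ^ (j : ℕ)) ^ 2 := by
  have : CharP K 2 := charP2
  have h1 : (∑ j : Fin n, algebraMap (ZMod 2) K (c j) * x ^ (j : ℕ)) ^ 2
      = frobenius K 2 (∑ j : Fin n, algebraMap (ZMod 2) K (c j) * x ^ (j : ℕ)) := rfl
  rw [h1, map_sum]
  apply Finset.sum_congr rfl
  intro j _
  rw [frobenius_def, mul_pow, ← map_pow]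
  have h2 : c j ^ 2 = c j := by
    generalize c j = z
    revert z; decide
  rw [h2, ← pow_mul, ← pow_mul, mul_comm]
  ring

theorem sum_sq_pow {n : ℕ} (c : Fin n → ZMod 2) (x : K) (k : ℕ) :
    ∑ j : Fin n, algebraMap (ZMod 2) K (c j) * (x ^ (2 ^ k)) ^ (j : ℕ)
      = (∑ j : Fin n, algebraMap (ZMod 2) K (c j) * x ^ (j : ℕ)) ^ (2 ^ k) := by
  induction k with
  | zero => simp
  | succ k ih =>
    rw [pow_succ 2 k, pow_mul x, sum_sq, ih, ← pow_mul]

/-- Frobenius closure of a finite set of units -/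
noncomputable def frobC (A : Finset Kˣ) : Finset Kˣ := by
  classical
  exact Finset.univ.filter (fun x => ∃ a ∈ A, ∃ k : ℕ, x = a ^ (2 ^ k))

theorem mem_frobC (A : Finset Kˣ) (x : Kˣ) : x ∈ frobC A ↔ ∃ a ∈ A, ∃ k : ℕ, x = a ^ (2 ^ k) := by
  classical
  unfold frobC
  simp

theorem frobC_sq (A : Finset Kˣ) : ∀ x ∈ frobC A, x ^ 2 ∈ frobC A := by
  intro x hx
  rw [mem_frobC] at hx ⊢
  obtain ⟨a, ha, k, rfl⟩ := hx
  exact ⟨a, ha, k + 1, by rw [← pow_mul, ← pow_succ]⟩

theorem mem_zeroCode_frobC {n : ℕ} (A : Finset Kˣ) (c : Fin n → ZMod 2) :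
    c ∈ zeroCode n (frobC A : Set Kˣ) ↔ ∀ a ∈ A, aeval (a : K) (wordPoly c) = 0 := by
  constructor
  · intro h a ha
    rw [aeval_wordPoly]
    apply h a
    rw [Finset.mem_coe, mem_frobC]
    exact ⟨a, ha, 0, by simp⟩
  · intro h x hx
    rw [Finset.mem_coe, mem_frobC] at hx
    obtain ⟨a, ha, k, rfl⟩ := hx
    have := h a ha
    rw [aeval_wordPoly] at this
    rw [Units.val_pow_eq_pow_val, sum_sq_pow, this, zero_pow (by positivity)]

theorem minpoly_ne {n : ℕ} (hn : n + 1 = Fintype.card K) {x y : Kˣ}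
    (h : ∀ k : ℕ, y ≠ x ^ (2 ^ k)) : minpoly (ZMod 2) (x : K) ≠ minpoly (ZMod 2) (y : K) := by
  classical
  intro heq
  have h1 : ev n y ∈ W n (frobC {x}) := by
    rw [mem_W_iff_annihilates hn _ (frobC_sq _)]
    intro c hc
    rw [mem_zeroCode_frobC] at hc
    have h2 := hc x (Finset.mem_singleton_self x)
    rw [← minpoly.dvd_iff, heq, minpoly.dvd_iff, aeval_wordPoly] at h2
    rw [← h2]
    apply Finset.sum_congr rfl
    intro j _
    simp only [ev]
    ring
  rw [mem_W_iff hn] at h1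
  by_cases hy : y ∈ frobC {x}
  · rw [mem_frobC] at hy
    obtain ⟨a, ha, k, hk⟩ := hy
    rw [Finset.mem_singleton] at ha
    subst ha
    exact h k hk
  · have h2 := h1 y hy
    rw [hat_ev hn, if_pos rfl] at h2
    exact one_ne_zero h2

theorem isIntegral' (x : K) : IsIntegral (ZMod 2) x := Algebra.IsIntegral.isIntegral x

theorem minpoly_coprime {x y : K} (h : minpoly (ZMod 2) x ≠ minpoly (ZMod 2) y) :
    IsCoprime (minpoly (ZMod 2) x) (minpoly (ZMod 2) y) := by
  rw [(minpoly.irreducible (isIntegral' x)).coprime_iff_not_dvd]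
  intro hd
  apply h
  have h1 : aeval x (minpoly (ZMod 2) y) = 0 := minpoly.dvd_iff.mp hd
  exact (minpoly.eq_of_irreducible_of_monic (minpoly.irreducible (isIntegral' y)) h1
    (minpoly.monic (isIntegral' y))).symm

/-- the code with generator polynomial `M_x M_y M_z` is given by its zeros -/
theorem cyclicCode_eq_zeroCode [DecidableEq K] {n : ℕ} (hn : n + 1 = Fintype.card K) {x y z : Kˣ}
    (hxy : ∀ k : ℕ, y ≠ x ^ (2 ^ k)) (hxz : ∀ k : ℕ, z ≠ x ^ (2 ^ k)) (hyz : ∀ k : ℕ, z ≠ y ^ (2 ^ k)) :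
    cyclicCode n (minpoly (ZMod 2) (x : K) * minpoly (ZMod 2) (y : K) * minpoly (ZMod 2) (z : K))
      = zeroCode n (frobC {x, y, z} : Set Kˣ) := by
  have c1 := minpoly_coprime (minpoly_ne hn hxy)
  have c2 := minpoly_coprime (minpoly_ne hn hxz)
  have c3 := minpoly_coprime (minpoly_ne hn hyz)
  have hdvd : ∀ w : Kˣ, minpoly (ZMod 2) (w : K) ∣ X ^ n - 1 := by
    intro w
    rw [minpoly.dvd_iff]
    simp only [map_sub, map_pow, aeval_X, map_one]
    have := pow_n_eq_one hn w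
    rw [← Units.val_pow_eq_pow_val, this]
    simp
  have hcop : IsCoprime (minpoly (ZMod 2) (x : K) * minpoly (ZMod 2) (y : K)) (minpoly (ZMod 2) (z : K)) :=
    IsCoprime.mul_left c2 c3
  ext c
  rw [mem_cyclicCode_iff (hcop.mul_dvd (c1.mul_dvd (hdvd x) (hdvd y)) (hdvd z)), mem_zeroCode_frobC]
  constructor
  · intro h a ha
    rw [← minpoly.dvd_iff]
    simp only [Finset.mem_insert, Finset.mem_singleton] at ha
    rcases ha with rfl | rfl | rfl
    · exact dvd_trans (dvd_trans (dvd_mul_right _ _) (dvd_mul_right _ _)) h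
    · exact dvd_trans (dvd_trans (dvd_mul_left _ _) (dvd_mul_right _ _)) h
    · exact dvd_trans (dvd_mul_left _ _) h
  · intro h
    apply hcop.mul_dvd
    · apply c1.mul_dvd
      · rw [minpoly.dvd_iff]; exact h x (by simp)
      · rw [minpoly.dvd_iff]; exact h y (by simp)
    · rw [minpoly.dvd_iff]; exact h z (by simp)

end

section exponents

variable {G : Type*} [CommGroup G]

theorem bet_pow_ne {α : G} {t : ℕ} (ht : 2 ≤ t) (hα : orderOf α = 2 ^ (2 * t + 1) - 1) {a : ℕ}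
    (h1 : 1 ≤ a) (h2 : a ≤ t) (k : ℕ) : α ^ (1 + 2 ^ a) ≠ α ^ (2 ^ k) := by
  intro h
  have e1 : α ^ (1 + 2 ^ a) = ∏ i ∈ ({0, a} : Finset ℕ), bet α i := by
    rw [Finset.prod_pair (by omega)]
    unfold bet
    rw [← pow_add]; simp
  have e2 : α ^ (2 ^ k) = ∏ i ∈ ({k % (2 * t + 1)} : Finset ℕ), bet α i := by
    rw [Finset.prod_singleton, ← bet_mod hα]; rfl
  have hk : k % (2 * t + 1) < 2 * t + 1 := Nat.mod_lt _ (by omega)
  rw [e1, e2] at h
  have h3 := prod_bet_inj hα (A := {0, a}) (B := {k % (2 * t + 1)}) ?_ ?_ ?_ ?_ h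
  · have h4 := congrArg Finset.card h3
    rw [Finset.card_pair (by omega), Finset.card_singleton] at h4
    omega
  · intro x hx
    simp only [Finset.mem_insert, Finset.mem_singleton] at hx
    rw [Finset.mem_range]; omega
  · intro x hx
    simp only [Finset.mem_singleton] at hx
    rw [Finset.mem_range]; omega
  · rw [Finset.card_pair (by omega)]; omega
  · rw [Finset.card_singleton]; omega

theorem bet_pow_ne' {α : G} {t : ℕ} (ht : 2 ≤ t) (hα : orderOf α = 2 ^ (2 * t + 1) - 1) {a b : ℕ}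
    (h1 : 1 ≤ a) (h2 : a ≤ t) (h3 : 1 ≤ b) (h4 : b ≤ t) (hab : a ≠ b) (k : ℕ) :
    α ^ (1 + 2 ^ a) ≠ (α ^ (1 + 2 ^ b)) ^ (2 ^ k) := by
  intro h
  have hk : k % (2 * t + 1) < 2 * t + 1 := Nat.mod_lt _ (by omega)
  have hkb : (k + b) % (2 * t + 1) < 2 * t + 1 := Nat.mod_lt _ (by omega)
  have hmod : (k + b) % (2 * t + 1) = if k % (2 * t + 1) + b < 2 * t + 1 then k % (2 * t + 1) + b
      else k % (2 * t + 1) + b - (2 * t + 1) := by
    rw [Nat.add_mod, Nat.mod_eq_of_lt (show b < 2 * t + 1 by omega)]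
    split_ifs with h5
    · exact Nat.mod_eq_of_lt h5
    · rw [Nat.mod_eq_sub_mod (by omega)]
      exact Nat.mod_eq_of_lt (by omega)
  have e1 : α ^ (1 + 2 ^ a) = ∏ i ∈ ({0, a} : Finset ℕ), bet α i := by
    rw [Finset.prod_pair (by omega)]
    unfold bet
    rw [← pow_add]; simp
  have hne : k % (2 * t + 1) ≠ (k + b) % (2 * t + 1) := by
    rw [hmod]; split_ifs <;> omega
  have e2 : (α ^ (1 + 2 ^ b)) ^ (2 ^ k)
      = ∏ i ∈ ({k % (2 * t + 1), (k + b) % (2 * t + 1)} : Finset ℕ), bet α i := by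
    rw [Finset.prod_pair hne, ← bet_mod hα, ← bet_mod hα]
    unfold bet
    rw [← pow_mul, ← pow_add]
    congr 1
    rw [pow_add]; ring
  rw [e1, e2] at h
  have h5 := prod_bet_inj hα (A := {0, a}) (B := {k % (2 * t + 1), (k + b) % (2 * t + 1)}) ?_ ?_ ?_ ?_ h
  · have h6 : k % (2 * t + 1) ∈ ({0, a} : Finset ℕ) := by rw [h5]; simp
    have h7 : (k + b) % (2 * t + 1) ∈ ({0, a} : Finset ℕ) := by rw [h5]; simp
    simp only [Finset.mem_insert, Finset.mem_singleton] at h6 h7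
    rw [hmod] at h7
    split_ifs at h7 <;> omega
  · intro x hx
    simp only [Finset.mem_insert, Finset.mem_singleton] at hx
    rw [Finset.mem_range]; omega
  · intro x hx
    simp only [Finset.mem_insert, Finset.mem_singleton] at hx
    rw [Finset.mem_range]; omega
  · rw [Finset.card_pair (by omega)]; omega
  · rw [Finset.card_pair hne]; omega

end exponents

end Pool.Agent.H523R2
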