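import Mathlib

set_option autoImplicit false
set_option linter.unusedSectionVars false

open Finset

namespace Pool.Agent.H523R2

section upper

variable {G : Type*} [CommGroup G]

/-- canonical forms for products of two elements of the second zero set -/
def Good (γ : ℕ → G) (t : ℕ) (x : G) : Prop :=
  (∃ i, x = γ i) ∨
  (∃ i a, 1 ≤ a ∧ a ≤ t ∧ x = γ i * γ (i + a)) ∨
  (∃ i a, 1 ≤ a ∧ a + 2 ≤ 2 * t ∧ x = γ i * γ (i + 1) * γ (i + 1 + a)) ∨
  (∃ i a, 2 ≤ a ∧ a + 4 ≤ 2 * t ∧ x = γ i * γ (i + 3) * γ (i + 3 + a)) ∨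
  (∃ i a, 1 ≤ a ∧ a + 1 ≤ t ∧ x = γ i * γ (i + 1) * (γ (i + 1 + a) * γ (i + 2 + a))) ∨
  (∃ i a, 1 ≤ a ∧ a + 3 ≤ t ∧ x = γ i * γ (i + 3) * (γ (i + 3 + a) * γ (i + 6 + a))) ∨
  (∃ i a, 1 ≤ a ∧ a + 4 ≤ 2 * t ∧ x = γ i * γ (i + 1) * (γ (i + 1 + a) * γ (i + 4 + a))) ∨
  (∃ i, x = γ i * γ (i + 2) * (γ (i + 3) * γ (i + 5)))

variable {γ : ℕ → G} {t : ℕ}

theorem per_mul (hper : ∀ i, γ (i + (2 * t + 1)) = γ i) (i k : ℕ) : γ (i + (2 * t + 1) * k) = γ i := by
  induction k with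
  | zero => simp
  | succ k ih => rw [Nat.mul_succ, ← add_assoc, hper, ih]

theorem per_mod (hper : ∀ i, γ (i + (2 * t + 1)) = γ i) (i : ℕ) : γ i = γ (i % (2 * t + 1)) := by
  conv_lhs => rw [← Nat.mod_add_div i (2 * t + 1)]
  rw [per_mul hper]

theorem exists_offset (hper : ∀ i, γ (i + (2 * t + 1)) = γ i) (i j : ℕ) :
    ∃ d, d < 2 * t + 1 ∧ ∀ k, γ (j + k) = γ (i + d + k) := by
  have hm : 0 < 2 * t + 1 := by omega
  refine ⟨(j + (2 * t + 1 - i % (2 * t + 1))) % (2 * t + 1), Nat.mod_lt _ hm, ?_⟩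
  intro k
  rw [per_mod hper (j + k), per_mod hper (i + _ + k)]
  congr 1
  have h1 : i % (2 * t + 1) < 2 * t + 1 := Nat.mod_lt _ hm
  have h2 : i + (j + (2 * t + 1 - i % (2 * t + 1))) ≡ j [MOD (2 * t + 1)] := by
    have h3 : i ≡ i % (2 * t + 1) [MOD (2 * t + 1)] := (Nat.mod_modEq _ _).symm
    have h4 := Nat.ModEq.add_right (j + (2 * t + 1 - i % (2 * t + 1))) h3
    refine h4.trans ?_
    have h5 : i % (2 * t + 1) + (j + (2 * t + 1 - i % (2 * t + 1))) = j + (2 * t + 1) := by omega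
    rw [h5]
    simp [Nat.ModEq]
  have h6 : (j + (2 * t + 1 - i % (2 * t + 1))) % (2 * t + 1) ≡ (j + (2 * t + 1 - i % (2 * t + 1))) [MOD (2 * t + 1)] :=
    Nat.mod_modEq _ _
  have h7 : i + (j + (2 * t + 1 - i % (2 * t + 1))) % (2 * t + 1) ≡ j [MOD (2 * t + 1)] :=
    (Nat.ModEq.add_left i h6).trans h2
  exact (Nat.ModEq.add_right k h7).symm

theorem good1 (i : ℕ) : Good γ t (γ i) := Or.inl ⟨i, rfl⟩

theorem good2 (hper : ∀ i, γ (i + (2 * t + 1)) = γ i) (i a : ℕ) (h1 : 1 ≤ a) (h2 : a ≤ 2 * t) :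
    Good γ t (γ i * γ (i + a)) := by
  by_cases h : a ≤ t
  · exact Or.inr (Or.inl ⟨i, a, h1, h, rfl⟩)
  · refine Or.inr (Or.inl ⟨i + a, 2 * t + 1 - a, by omega, by omega, ?_⟩)
    have e : i + a + (2 * t + 1 - a) = i + (2 * t + 1) := by omega
    rw [e, hper, mul_comm]

/-- one point and one edge of length 1 -/
theorem goodL1 (hper : ∀ i, γ (i + (2 * t + 1)) = γ i) (hsq : ∀ i, γ i * γ i = γ (i + 2)) (ht : 4 ≤ t)
    (k i : ℕ) : Good γ t (γ k * (γ i * γ (i + 1))) := by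
  obtain ⟨d, hd, hk⟩ := exists_offset hper i k
  have hk0 := hk 0
  simp only [add_zero] at hk0
  rw [hk0]
  by_cases h0 : d = 0
  · subst h0
    rw [add_zero, ← mul_assoc, hsq, mul_comm]
    exact good2 hper (i + 1) 1 (by omega) (by omega)
  by_cases h1 : d = 1
  · subst h1
    have e : γ (i + 1) * (γ i * γ (i + 1)) = γ i * γ (i + 3) := by
      rw [mul_left_comm, hsq]
    rw [e]
    exact good2 hper i 3 (by omega) (by omega)
  by_cases h2 : d + 1 ≤ 2 * t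
  · refine Or.inr (Or.inr (Or.inl ⟨i, d - 1, by omega, by omega, ?_⟩))
    have e : i + 1 + (d - 1) = i + d := by omega
    rw [e, mul_comm]
  · have hd' : d = 2 * t := by omega
    refine Or.inr (Or.inr (Or.inl ⟨i + d, 1, by omega, by omega, ?_⟩))
    have e1 : i + d + 1 = i + (2 * t + 1) := by omega
    have e2 : i + (2 * t + 1) + 1 = (i + 1) + (2 * t + 1) := by omega
    rw [e1, e2, hper, hper, mul_assoc]

/-- one point and one edge of length 3 -/
theorem goodL3 (hper : ∀ i, γ (i + (2 * t + 1)) = γ i) (hsq : ∀ i, γ i * γ i = γ (i + 2)) (ht : 4 ≤ t)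
    (k i : ℕ) : Good γ t (γ k * (γ i * γ (i + 3))) := by
  obtain ⟨d, hd, hk⟩ := exists_offset hper i k
  have hk0 := hk 0
  simp only [add_zero] at hk0
  rw [hk0]
  by_cases h0 : d = 0
  · subst h0
    rw [add_zero, ← mul_assoc, hsq]
    exact good2 hper (i + 2) 1 (by omega) (by omega)
  by_cases h1 : d = 1
  · subst h1
    have e : γ (i + 1) * (γ i * γ (i + 3)) = γ (i + 3) * (γ i * γ (i + 1)) := by
      rw [← mul_assoc, mul_comm (γ (i + 1)), mul_comm]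
    rw [e]
    exact goodL1 hper hsq ht _ _
  by_cases h2 : d = 2
  · subst h2
    have e : γ (i + 2) * (γ i * γ (i + 3)) = γ i * (γ (i + 2) * γ (i + 2 + 1)) := by
      rw [mul_left_comm]
    rw [e]
    exact goodL1 hper hsq ht _ _
  by_cases h3 : d = 3
  · subst h3
    have e : γ (i + 3) * (γ i * γ (i + 3)) = γ i * γ (i + 5) := by
      rw [mul_left_comm, hsq]
    rw [e]
    exact good2 hper i 5 (by omega) (by omega)
  by_cases h4 : d = 4
  · subst h4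
    have e : γ (i + 4) * (γ i * γ (i + 3)) = γ i * (γ (i + 3) * γ (i + 3 + 1)) := by
      rw [mul_left_comm, mul_comm (γ (i + 4))]
    rw [e]
    exact goodL1 hper hsq ht _ _
  by_cases h5 : d = 2 * t
  · subst h5
    have e : γ (i + 2 * t) * (γ i * γ (i + 3)) = γ (i + 3) * (γ (i + 2 * t) * γ (i + 2 * t + 1)) := by
      rw [add_assoc i (2 * t) 1, hper, ← mul_assoc, mul_comm]
    rw [e]
    exact goodL1 hper hsq ht _ _
  refine Or.inr (Or.inr (Or.inr (Or.inl ⟨i, d - 3, by omega, by omega, ?_⟩)))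
  have e : i + 3 + (d - 3) = i + d := by omega
  rw [e, mul_comm]

theorem good11_aux (hper : ∀ i, γ (i + (2 * t + 1)) = γ i) (hsq : ∀ i, γ i * γ i = γ (i + 2)) (ht : 4 ≤ t)
    (i d : ℕ) (hd : d < 2 * t + 1) : Good γ t (γ i * γ (i + 1) * (γ (i + d) * γ (i + d + 1))) := by
  by_cases h0 : d = 0
  · subst h0
    have e : γ i * γ (i + 1) * (γ (i + 0) * γ (i + 0 + 1)) = γ (i + 2) * γ (i + 2 + 1) := by
      simp only [add_zero]
      rw [mul_mul_mul_comm, hsq, hsq]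
    rw [e]
    exact good2 hper _ 1 (by omega) (by omega)
  by_cases h1 : d = 1
  · subst h1
    have e : γ i * γ (i + 1) * (γ (i + 1) * γ (i + 1 + 1)) = γ i * (γ (i + 2) * γ (i + 2 + 1)) := by
      rw [mul_assoc, ← mul_assoc (γ (i + 1)), hsq, mul_comm (γ (i + 1 + 2))]
    rw [e]
    exact goodL1 hper hsq ht _ _
  by_cases h2 : d = 2 * t
  · subst h2
    have e : γ i * γ (i + 1) * (γ (i + 2 * t) * γ (i + 2 * t + 1))
        = γ (i + 2 * t) * (γ (i + 1) * γ (i + 1 + 1)) := by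
      rw [add_assoc i (2 * t) 1, hper]
      have h3 : γ i * γ (i + 1) * (γ (i + 2 * t) * γ i) = γ (i + 2 * t) * (γ (i + 1) * (γ i * γ i)) := by
        ac_rfl
      rw [h3, hsq]
    rw [e]
    exact goodL1 hper hsq ht _ _
  by_cases h3 : d ≤ t
  · refine Or.inr (Or.inr (Or.inr (Or.inr (Or.inl ⟨i, d - 1, by omega, by omega, ?_⟩))))
    have e1 : i + 1 + (d - 1) = i + d := by omega
    have e2 : i + 2 + (d - 1) = i + d + 1 := by omega
    rw [e1, e2]
  · refine Or.inr (Or.inr (Or.inr (Or.inr (Or.inl ⟨i + d, 2 * t - d, by omega, by omega, ?_⟩))))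
    have e1 : i + d + 1 + (2 * t - d) = i + (2 * t + 1) := by omega
    have e2 : i + d + 2 + (2 * t - d) = i + 1 + (2 * t + 1) := by omega
    rw [e1, e2, hper, hper, mul_comm]

theorem good11 (hper : ∀ i, γ (i + (2 * t + 1)) = γ i) (hsq : ∀ i, γ i * γ i = γ (i + 2)) (ht : 4 ≤ t)
    (i j : ℕ) : Good γ t (γ i * γ (i + 1) * (γ j * γ (j + 1))) := by
  obtain ⟨d, hd, hk⟩ := exists_offset hper i j
  have hk0 := hk 0
  simp only [add_zero] at hk0
  rw [hk0, hk 1]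
  exact good11_aux hper hsq ht i d hd

theorem good33_aux (hper : ∀ i, γ (i + (2 * t + 1)) = γ i) (hsq : ∀ i, γ i * γ i = γ (i + 2)) (ht : 4 ≤ t)
    (i d : ℕ) (hd : d + 4 ≤ 2 * t + 1) : Good γ t (γ i * γ (i + 3) * (γ (i + d) * γ (i + d + 3))) := by
  by_cases h0 : d = 0
  · subst h0
    have e : γ i * γ (i + 3) * (γ (i + 0) * γ (i + 0 + 3)) = γ (i + 2) * γ (i + 2 + 3) := by
      simp only [add_zero]
      rw [mul_mul_mul_comm, hsq, hsq]
    rw [e]
    exact good2 hper _ 3 (by omega) (by omega)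
  by_cases h1 : d = 1
  · subst h1
    have e : γ i * γ (i + 3) * (γ (i + 1) * γ (i + 1 + 3)) = γ i * γ (i + 1) * (γ (i + 3) * γ (i + 3 + 1)) := by
      rw [mul_mul_mul_comm]
    rw [e]
    exact good11 hper hsq ht _ _
  by_cases h2 : d = 2
  · subst h2
    refine Or.inr (Or.inr (Or.inr (Or.inr (Or.inr (Or.inr (Or.inr ⟨i, ?_⟩))))))
    rw [mul_mul_mul_comm]
  by_cases h3 : d = 3
  · subst h3
    have e : γ i * γ (i + 3) * (γ (i + 3) * γ (i + 3 + 3)) = γ i * (γ (i + 5) * γ (i + 5 + 1)) := by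
      rw [mul_assoc, ← mul_assoc (γ (i + 3)), hsq]
    rw [e]
    exact goodL1 hper hsq ht _ _
  by_cases h4 : d ≤ t
  · refine Or.inr (Or.inr (Or.inr (Or.inr (Or.inr (Or.inl ⟨i, d - 3, by omega, by omega, ?_⟩)))))
    have e1 : i + 3 + (d - 3) = i + d := by omega
    have e2 : i + 6 + (d - 3) = i + d + 3 := by omega
    rw [e1, e2]
  · refine Or.inr (Or.inr (Or.inr (Or.inr (Or.inr (Or.inl ⟨i + d, 2 * t - 2 - d, by omega, by omega, ?_⟩)))))
    have e1 : i + d + 3 + (2 * t - 2 - d) = i + (2 * t + 1) := by omega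
    have e2 : i + d + 6 + (2 * t - 2 - d) = i + 3 + (2 * t + 1) + 1 - 1 := by omega
    rw [e1, e2, Nat.add_sub_cancel, hper, hper, mul_comm]

theorem good33 (hper : ∀ i, γ (i + (2 * t + 1)) = γ i) (hsq : ∀ i, γ i * γ i = γ (i + 2)) (ht : 4 ≤ t)
    (i j : ℕ) : Good γ t (γ i * γ (i + 3) * (γ j * γ (j + 3))) := by
  obtain ⟨d, hd, hk⟩ := exists_offset hper i j
  have hk0 := hk 0
  simp only [add_zero] at hk0
  by_cases h : d + 4 ≤ 2 * t + 1
  · rw [hk0, hk 3]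
    exact good33_aux hper hsq ht i d h
  · have h2 := good33_aux hper hsq ht j (2 * t + 1 - d) (by omega)
    have e1 : γ (j + (2 * t + 1 - d)) = γ i := by
      rw [hk, ← hper i]; congr 1; omega
    have e2 : γ (j + (2 * t + 1 - d) + 3) = γ (i + 3) := by
      rw [add_assoc j, hk, ← hper (i + 3)]; congr 1; omega
    rw [e1, e2] at h2
    rw [mul_comm]
    exact h2

theorem good13 (hper : ∀ i, γ (i + (2 * t + 1)) = γ i) (hsq : ∀ i, γ i * γ i = γ (i + 2)) (ht : 4 ≤ t)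
    (i j : ℕ) : Good γ t (γ i * γ (i + 1) * (γ j * γ (j + 3))) := by
  obtain ⟨d, hd, hk⟩ := exists_offset hper i j
  have hk0 := hk 0
  simp only [add_zero] at hk0
  rw [hk0, hk 3]
  by_cases h0 : d = 0
  · subst h0
    have e : γ i * γ (i + 1) * (γ (i + 0) * γ (i + 0 + 3)) = γ (i + 3) * (γ (i + 1) * γ (i + 1 + 1)) := by
      simp only [add_zero]
      have h3 : γ i * γ (i + 1) * (γ i * γ (i + 3)) = γ (i + 3) * (γ (i + 1) * (γ i * γ i)) := by
        ac_rfl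
      rw [h3, hsq]
    rw [e]
    exact goodL1 hper hsq ht _ _
  by_cases h1 : d = 1
  · subst h1
    have e : γ i * γ (i + 1) * (γ (i + 1) * γ (i + 1 + 3)) = γ i * (γ (i + 3) * γ (i + 3 + 1)) := by
      rw [mul_assoc, ← mul_assoc (γ (i + 1)), hsq]
    rw [e]
    exact goodL1 hper hsq ht _ _
  by_cases h2 : d + 2 = 2 * t
  · have e : γ i * γ (i + 1) * (γ (i + d) * γ (i + d + 3)) = γ (i + d) * (γ (i + 1) * γ (i + 1 + 1)) := by
      have e1 : i + d + 3 = i + (2 * t + 1) := by omega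
      rw [e1, hper]
      have h3 : γ i * γ (i + 1) * (γ (i + d) * γ i) = γ (i + d) * (γ (i + 1) * (γ i * γ i)) := by
        ac_rfl
      rw [h3, hsq]
    rw [e]
    exact goodL1 hper hsq ht _ _
  by_cases h3 : d + 1 = 2 * t
  · have e : γ i * γ (i + 1) * (γ (i + d) * γ (i + d + 3)) = γ (i + d) * (γ i * γ (i + 3)) := by
      have e1 : i + d + 3 = i + 1 + (2 * t + 1) := by omega
      rw [e1, hper]
      have h3 : γ i * γ (i + 1) * (γ (i + d) * γ (i + 1)) = γ (i + d) * (γ i * (γ (i + 1) * γ (i + 1))) := by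
        ac_rfl
      rw [h3, hsq]
    rw [e]
    exact goodL3 hper hsq ht _ _
  by_cases h4 : d = 2 * t
  · subst h4
    have e : γ i * γ (i + 1) * (γ (i + 2 * t) * γ (i + 2 * t + 3))
        = γ (i + 2 * t) * γ (i + 2 * t + 1) * (γ (i + 1) * γ (i + 1 + 1)) := by
      have e1 : i + 2 * t + 3 = i + 2 + (2 * t + 1) := by omega
      have e2 : i + 2 * t + 1 = i + (2 * t + 1) := by omega
      rw [e1, e2, hper, hper]
      ac_rfl
    rw [e]
    exact good11 hper hsq ht _ _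
  refine Or.inr (Or.inr (Or.inr (Or.inr (Or.inr (Or.inr (Or.inl ⟨i, d - 1, by omega, by omega, ?_⟩))))))
  have e1 : i + 1 + (d - 1) = i + d := by omega
  have e2 : i + 4 + (d - 1) = i + d + 3 := by omega
  rw [e1, e2]

theorem goodLL (hper : ∀ i, γ (i + (2 * t + 1)) = γ i) (hsq : ∀ i, γ i * γ i = γ (i + 2))
    (i j : ℕ) : Good γ t (γ i * γ j) := by
  obtain ⟨d, hd, hk⟩ := exists_offset hper i j
  have hk0 := hk 0
  simp only [add_zero] at hk0
  rw [hk0]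
  by_cases h0 : d = 0
  · subst h0
    rw [add_zero, hsq]
    exact good1 _
  · exact good2 hper i d (by omega) (by omega)

/-- The finset of all canonical forms. -/
def canon [DecidableEq G] (γ : ℕ → G) (t : ℕ) : Finset G :=
  ((range (2 * t + 1)).image γ) ∪
  (((range (2 * t + 1)) ×ˢ (range t)).image (fun p => γ p.1 * γ (p.1 + (p.2 + 1)))) ∪
  (((range (2 * t + 1)) ×ˢ (range (2 * t - 2))).image
    (fun p => γ p.1 * γ (p.1 + 1) * γ (p.1 + 1 + (p.2 + 1)))) ∪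
  (((range (2 * t + 1)) ×ˢ (range (2 * t - 5))).image
    (fun p => γ p.1 * γ (p.1 + 3) * γ (p.1 + 3 + (p.2 + 2)))) ∪
  (((range (2 * t + 1)) ×ˢ (range (t - 1))).image
    (fun p => γ p.1 * γ (p.1 + 1) * (γ (p.1 + 1 + (p.2 + 1)) * γ (p.1 + 2 + (p.2 + 1))))) ∪
  (((range (2 * t + 1)) ×ˢ (range (t - 3))).image
    (fun p => γ p.1 * γ (p.1 + 3) * (γ (p.1 + 3 + (p.2 + 1)) * γ (p.1 + 6 + (p.2 + 1))))) ∪
  (((range (2 * t + 1)) ×ˢ (range (2 * t - 4))).image
    (fun p => γ p.1 * γ (p.1 + 1) * (γ (p.1 + 1 + (p.2 + 1)) * γ (p.1 + 4 + (p.2 + 1))))) ∪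
  ((range (2 * t + 1)).image (fun i => γ i * γ (i + 2) * (γ (i + 3) * γ (i + 5))))

theorem card_canon [DecidableEq G] (ht : 4 ≤ t) : (canon γ t).card ≤ (2 * t + 1) * (9 * t - 13) := by
  have key : (canon γ t).card ≤ (2 * t + 1) + (2 * t + 1) * t + (2 * t + 1) * (2 * t - 2)
      + (2 * t + 1) * (2 * t - 5) + (2 * t + 1) * (t - 1) + (2 * t + 1) * (t - 3)
      + (2 * t + 1) * (2 * t - 4) + (2 * t + 1) := by
    unfold canon
    refine (card_union_le _ _).trans (add_le_add ((card_union_le _ _).trans (add_le_add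
      ((card_union_le _ _).trans (add_le_add ((card_union_le _ _).trans (add_le_add
      ((card_union_le _ _).trans (add_le_add ((card_union_le _ _).trans (add_le_add
      ((card_union_le _ _).trans (add_le_add ?_ ?_)) ?_)) ?_)) ?_)) ?_)) ?_)) ?_)
    all_goals
      refine card_image_le.trans (le_of_eq ?_)
      simp
  refine key.trans (le_of_eq ?_)
  obtain ⟨s, rfl⟩ : ∃ s, t = s + 4 := ⟨t - 4, by omega⟩
  have e1 : 2 * (s + 4) - 2 = 2 * s + 6 := by omega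
  have e2 : 2 * (s + 4) - 5 = 2 * s + 3 := by omega
  have e3 : s + 4 - 1 = s + 3 := by omega
  have e4 : s + 4 - 3 = s + 1 := by omega
  have e5 : 2 * (s + 4) - 4 = 2 * s + 4 := by omega
  have e6 : 9 * (s + 4) - 13 = 9 * s + 23 := by omega
  rw [e1, e2, e3, e4, e5, e6]
  ring

theorem good_mem_canon [DecidableEq G] (hper : ∀ i, γ (i + (2 * t + 1)) = γ i) {x : G}
    (hx : Good γ t x) : x ∈ canon γ t := by
  have hm : 0 < 2 * t + 1 := by omega
  have hr : ∀ i k, γ (i + k) = γ (i % (2 * t + 1) + k) := by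
    intro i k
    conv_lhs => rw [← Nat.mod_add_div i (2 * t + 1)]
    have e : i % (2 * t + 1) + (2 * t + 1) * (i / (2 * t + 1)) + k
        = i % (2 * t + 1) + k + (2 * t + 1) * (i / (2 * t + 1)) := by omega
    rw [e, per_mul hper]
  have hr0 : ∀ i, γ i = γ (i % (2 * t + 1)) := per_mod hper
  have hr2 : ∀ i k l, γ (i + k + l) = γ (i % (2 * t + 1) + k + l) := by
    intro i k l
    rw [add_assoc, hr, ← add_assoc]
  unfold canon
  simp only [mem_union, mem_image, mem_product, mem_range, Prod.exists]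
  rcases hx with ⟨i, rfl⟩ | ⟨i, a, h1, h2, rfl⟩ | ⟨i, a, h1, h2, rfl⟩ | ⟨i, a, h1, h2, rfl⟩ |
    ⟨i, a, h1, h2, rfl⟩ | ⟨i, a, h1, h2, rfl⟩ | ⟨i, a, h1, h2, rfl⟩ | ⟨i, rfl⟩
  · iterate 7 left
    exact ⟨i % (2 * t + 1), Nat.mod_lt _ hm, (hr0 i).symm⟩
  · iterate 6 left
    right
    refine ⟨i % (2 * t + 1), a - 1, ⟨Nat.mod_lt _ hm, by omega⟩, ?_⟩
    rw [← hr0, ← hr, Nat.sub_add_cancel h1]
  · iterate 5 left
    right
    refine ⟨i % (2 * t + 1), a - 1, ⟨Nat.mod_lt _ hm, by omega⟩, ?_⟩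
    rw [← hr0, ← hr, ← hr2, Nat.sub_add_cancel h1]
  · iterate 4 left
    right
    refine ⟨i % (2 * t + 1), a - 2, ⟨Nat.mod_lt _ hm, by omega⟩, ?_⟩
    rw [← hr0, ← hr, ← hr2, Nat.sub_add_cancel h1]
  · iterate 3 left
    right
    refine ⟨i % (2 * t + 1), a - 1, ⟨Nat.mod_lt _ hm, by omega⟩, ?_⟩
    rw [← hr0, ← hr, ← hr2, ← hr2, Nat.sub_add_cancel h1]
  · iterate 2 left
    right
    refine ⟨i % (2 * t + 1), a - 1, ⟨Nat.mod_lt _ hm, by omega⟩, ?_⟩
    rw [← hr0, ← hr, ← hr2, ← hr2, Nat.sub_add_cancel h1]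
  · left
    right
    refine ⟨i % (2 * t + 1), a - 1, ⟨Nat.mod_lt _ hm, by omega⟩, ?_⟩
    rw [← hr0, ← hr, ← hr2, ← hr2, Nat.sub_add_cancel h1]
  · right
    refine ⟨i % (2 * t + 1), Nat.mod_lt _ hm, ?_⟩
    rw [← hr0, ← hr, ← hr, ← hr]

open scoped Pointwise in
theorem upper_bound [DecidableEq G] (hper : ∀ i, γ (i + (2 * t + 1)) = γ i)
    (hsq : ∀ i, γ i * γ i = γ (i + 2)) (ht : 4 ≤ t) (P : Finset G)
    (hP : ∀ x ∈ P, (∃ i, x = γ i) ∨ (∃ i, x = γ i * γ (i + 1)) ∨ (∃ i, x = γ i * γ (i + 3))) :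
    (P * P).card ≤ (2 * t + 1) * (9 * t - 13) := by
  refine (card_le_card ?_).trans (card_canon (γ := γ) ht)
  intro z hz
  obtain ⟨x, hx, y, hy, rfl⟩ := mem_mul.mp hz
  apply good_mem_canon hper
  rcases hP x hx with ⟨i, rfl⟩ | ⟨i, rfl⟩ | ⟨i, rfl⟩ <;> rcases hP y hy with ⟨j, rfl⟩ | ⟨j, rfl⟩ | ⟨j, rfl⟩
  · exact goodLL hper hsq i j
  · exact goodL1 hper hsq ht i j
  · exact goodL3 hper hsq ht i j
  · rw [mul_comm]; exact goodL1 hper hsq ht j i
  · exact good11 hper hsq ht i j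
  · exact good13 hper hsq ht i j
  · rw [mul_comm]; exact goodL3 hper hsq ht j i
  · rw [mul_comm]; exact good13 hper hsq ht j i
  · exact good33 hper hsq ht i j

end upper

end Pool.Agent.H523R2
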