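import Mathlib

set_option autoImplicit false

open Polynomial

namespace Pool.Agent.H523R2

/-- The polynomial `c_0 + c_1 X + ⋯ + c_{n-1} X^(n-1)` over `GF(2)` attached to a binary word. -/
noncomputable def wordPoly {n : ℕ} (c : Fin n → ZMod 2) : (ZMod 2)[X] :=
  ∑ j : Fin n, C (c j) * X ^ (j : ℕ)

/-- The binary cyclic code of length `n` with generator polynomial `g`: the words whose class in the
ring `GF(2)[X]/(X^n - 1)` is a multiple of the class of `g`. -/
def cyclicCode (n : ℕ) (g : (ZMod 2)[X]) : Set (Fin n → ZMod 2) :=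
  {c | AdjoinRoot.mk (X ^ n - 1 : (ZMod 2)[X]) g ∣ AdjoinRoot.mk (X ^ n - 1 : (ZMod 2)[X]) (wordPoly c)}

/-- `M^(i)(x)`: the minimal polynomial of `α^i` over `GF(2)`. -/
noncomputable def Mpoly {K : Type*} [Field K] [Algebra (ZMod 2) K] (α : K) (i : ℕ) : (ZMod 2)[X] :=
  minpoly (ZMod 2) (α ^ i)

/-- The code `C_t` of length `2^(2t+1) - 1`, with generator polynomial `M^(1) M^(r) M^(s)`, where
`r = 1 + 2^(t-1)` and `s = 1 + 2^t`. -/
def codeC {K : Type*} [Field K] [Algebra (ZMod 2) K] (α : K) (t : ℕ) :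
    Set (Fin (2 ^ (2 * t + 1) - 1) → ZMod 2) :=
  cyclicCode (2 ^ (2 * t + 1) - 1) (Mpoly α 1 * Mpoly α (1 + 2 ^ (t - 1)) * Mpoly α (1 + 2 ^ t))

/-- The triple-error-correcting BCH code `B_t` of length `2^(2t+1) - 1`, with generator polynomial
`M^(1) M^(3) M^(5)`. -/
def codeB {K : Type*} [Field K] [Algebra (ZMod 2) K] (α : K) (t : ℕ) :
    Set (Fin (2 ^ (2 * t + 1) - 1) → ZMod 2) :=
  cyclicCode (2 ^ (2 * t + 1) - 1) (Mpoly α 1 * Mpoly α 3 * Mpoly α 5)

/-- Two binary codes of length `n` are equivalent if one is obtained from the other by a fixed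
permutation of the `n` coordinates. -/
def PermEquivalent {n : ℕ} (C D : Set (Fin n → ZMod 2)) : Prop :=
  ∃ σ : Equiv.Perm (Fin n), D = (fun c : Fin n → ZMod 2 => fun j => c (σ j)) '' C

end Pool.Agent.H523R2
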