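import Pool.Agent.H523R2.CodeZero

set_option autoImplicit false
set_option linter.unusedSectionVars false

open Polynomial

namespace Pool.Agent.H523R2

theorem orderOf_rot : orderOf (finRotate 127) = 127 := by
  have h1 : (finRotate (125 + 2)).IsCycle := isCycle_finRotate
  have h2 := h1.orderOf
  rw [support_finRotate] at h2
  simpa using h2

open scoped Pointwise in
/-- Sylow: in a finite group whose order is not divisible by `p²`, two elements of order `p` generate
conjugate subgroups. -/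
theorem exists_conj {G : Type*} [Group G] [Finite G] {p : ℕ} (hp : p.Prime) (h2 : ¬ p ^ 2 ∣ Nat.card G)
    (τ τ' : G) (ho : orderOf τ = p) (ho' : orderOf τ' = p) :
    ∃ g : G, ∃ a : ℕ, g * τ' * g⁻¹ = τ ^ a := by
  have : Fact p.Prime := ⟨hp⟩
  have hpos : Nat.card G ≠ 0 := Nat.card_pos.ne'
  have hf : (Nat.card G).factorization p = 1 := by
    have h5 : (Nat.card G).factorization p < 2 := by
      by_contra h6
      push Not at h6
      exact h2 ((hp.pow_dvd_iff_le_factorization hpos).mpr h6)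
    have h7 : 1 ≤ (Nat.card G).factorization p := by
      rw [← hp.pow_dvd_iff_le_factorization hpos, pow_one]
      have := orderOf_dvd_natCard τ
      rwa [ho] at this
    omega
  have c1 : Nat.card (Subgroup.zpowers τ) = p ^ (Nat.card G).factorization p := by
    rw [Nat.card_zpowers, ho, hf, pow_one]
  have c2 : Nat.card (Subgroup.zpowers τ') = p ^ (Nat.card G).factorization p := by
    rw [Nat.card_zpowers, ho', hf, pow_one]
  obtain ⟨g, hg⟩ := MulAction.exists_smul_eq G (Sylow.ofCard _ c2) (Sylow.ofCard _ c1)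
  have h1 : g * τ' * g⁻¹ ∈ Subgroup.zpowers τ := by
    have h3 : (MulAut.conj g • Subgroup.zpowers τ') = Subgroup.zpowers τ := by
      have := congrArg (fun P : Sylow p G => (P : Subgroup G)) hg
      exact this
    rw [← h3]
    have h4 := Subgroup.smul_mem_pointwise_smul τ' (MulAut.conj g) (Subgroup.zpowers τ')
      (Subgroup.mem_zpowers τ')
    rwa [MulAut.smul_def, MulAut.conj_apply] at h4
  have h3 := (mem_powers_iff_mem_zpowers).mpr h1
  obtain ⟨a, ha⟩ := h3
  exact ⟨g, a, ha.symm⟩

/-- permutations preserving a set of words -/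
def autC {n : ℕ} (B : Set (Fin n → ZMod 2)) : Subgroup (Equiv.Perm (Fin n)) where
  carrier := {π | ∀ c, c ∈ B ↔ (fun j => c (π j)) ∈ B}
  one_mem' := fun c => Iff.rfl
  mul_mem' := by
    intro a b ha hb c
    rw [ha c, hb (fun j => c (a j))]
    rfl
  inv_mem' := by
    intro a ha c
    rw [ha (fun j => c (a⁻¹ j))]
    simp

theorem not_dvd_aut (B : Set (Fin 127 → ZMod 2)) : ¬ 127 ^ 2 ∣ Nat.card (autC B) := by
  intro h
  have hd : Nat.card (autC B) ∣ Nat.factorial 127 := by
    have h1 := Subgroup.card_subgroup_dvd_card (autC B)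
    rw [Nat.card_eq_fintype_card (α := Equiv.Perm (Fin 127)), Fintype.card_perm, Fintype.card_fin] at h1
    exact h1
  have h4 : 127 ^ 2 ∣ Nat.factorial 127 := dvd_trans h hd
  revert h4
  decide +kernel

section

variable {K : Type*} [Field K] [Fintype K] [Algebra (ZMod 2) K]

theorem zeroCode_rot {S : Set Kˣ} (hn : 127 + 1 = Fintype.card K) (c : Fin 127 → ZMod 2)
    (hc : c ∈ zeroCode 127 S) : (fun j => c (finRotate 127 j)) ∈ zeroCode 127 S := by
  intro x hx
  have h1 := hc x hx
  have h2 : (x : K) * ∑ j : Fin 127, algebraMap (ZMod 2) K (c (finRotate 127 j)) * (x : K) ^ (j : ℕ)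
      = ∑ j : Fin 127, algebraMap (ZMod 2) K (c j) * (x : K) ^ (j : ℕ) := by
    rw [← Equiv.sum_comp (finRotate 127) (fun j => algebraMap (ZMod 2) K (c j) * (x : K) ^ (j : ℕ)),
      Finset.mul_sum]
    apply Finset.sum_congr rfl
    intro j _
    have h3 : (x : K) * (x : K) ^ (j : ℕ) = (x : K) ^ ((finRotate 127 j : Fin 127) : ℕ) := by
      by_cases hj : (j : ℕ) = 126
      · have hj' : j = Fin.last 126 := Fin.ext hj
        subst hj'
        rw [finRotate_last]
        have h4 := pow_n_eq_one hn x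
        have h5 : (x : K) ^ 127 = 1 := by
          rw [← Units.val_pow_eq_pow_val, h4]; rfl
        rw [← pow_succ']
        simpa using h5
      · have hj' : (j : ℕ) < 126 := by omega
        rw [coe_finRotate_of_ne_last (by intro h; apply hj; rw [h]; rfl), pow_succ']
    rw [← h3]
    ring
  rw [h1] at h2
  exact (mul_eq_zero.mp h2).resolve_left x.ne_zero

theorem zeroCode_rot_iff {S : Set Kˣ} (hn : 127 + 1 = Fintype.card K) (c : Fin 127 → ZMod 2) :
    c ∈ zeroCode 127 S ↔ (fun j => c (finRotate 127 j)) ∈ zeroCode 127 S := by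
  constructor
  · exact zeroCode_rot hn c
  · intro h
    have key : ∀ k : ℕ, (fun j => c (((finRotate 127) ^ (k + 1) : Equiv.Perm (Fin 127)) j)) ∈ zeroCode 127 S := by
      intro k
      induction k with
      | zero => simpa using h
      | succ k ih =>
        have := zeroCode_rot hn _ ih
        have e : (fun j => c (((finRotate 127) ^ (k + 1 + 1) : Equiv.Perm (Fin 127)) j))
            = (fun j => c (((finRotate 127) ^ (k + 1) : Equiv.Perm (Fin 127)) (finRotate 127 j))) := by
          funext j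
          rw [pow_succ (finRotate 127) (k + 1)]
          rfl
        rw [e]
        exact this
    have h2 := key 126
    have h3 : (finRotate 127) ^ (126 + 1) = 1 := by
      have := pow_orderOf_eq_one (finRotate 127)
      rwa [orderOf_rot] at this
    rw [h3] at h2
    exact h2

/-- Equivalence of cyclic codes of prime length 127 comes from an affine map. -/
theorem exists_affine {S T : Set Kˣ} (hn : 127 + 1 = Fintype.card K) (σ : Equiv.Perm (Fin 127))
    (h : ∀ c : Fin 127 → ZMod 2, c ∈ zeroCode 127 S ↔ (fun j => c (σ j)) ∈ zeroCode 127 T) :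
    ∃ π : Equiv.Perm (Fin 127), (∀ c : Fin 127 → ZMod 2, c ∈ zeroCode 127 S ↔ (fun j => c (π j)) ∈ zeroCode 127 T)
      ∧ ∃ a : ℕ, π⁻¹ * finRotate 127 * π = (finRotate 127) ^ a := by
  have hτ : finRotate 127 ∈ autC (zeroCode 127 T) := fun c => zeroCode_rot_iff hn c
  have hτ' : σ⁻¹ * finRotate 127 * σ ∈ autC (zeroCode 127 T) := by
    intro c
    have h1 := h (fun j => c (σ⁻¹ j))
    have h2 := zeroCode_rot_iff (S := S) hn (fun j => c (σ⁻¹ j))
    have h3 := h (fun j => c (σ⁻¹ (finRotate 127 j)))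
    have e1 : (fun j => c (σ⁻¹ (σ j))) = c := by funext j; simp
    simp only [e1] at h1
    rw [← h1, h2, h3]
    rfl
  have ho : orderOf (⟨finRotate 127, hτ⟩ : autC (zeroCode 127 T)) = 127 := by
    rw [Subgroup.orderOf_mk]; exact orderOf_rot
  have ho' : orderOf (⟨σ⁻¹ * finRotate 127 * σ, hτ'⟩ : autC (zeroCode 127 T)) = 127 := by
    rw [Subgroup.orderOf_mk]
    have h6 := MulEquiv.orderOf_eq (MulAut.conj σ⁻¹) (finRotate 127)
    rw [MulAut.conj_apply, inv_inv] at h6
    rw [h6]
    exact orderOf_rot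
  obtain ⟨g, a, hga⟩ := exists_conj (G := autC (zeroCode 127 T)) (p := 127) (by norm_num)
    (not_dvd_aut _) _ _ ho ho'
  refine ⟨σ * (g : Equiv.Perm (Fin 127))⁻¹, ?_, a, ?_⟩
  · intro c
    rw [h c]
    have h4 : (g : Equiv.Perm (Fin 127))⁻¹ ∈ autC (zeroCode 127 T) := (autC (zeroCode 127 T)).inv_mem g.2
    exact h4 (fun j => c (σ j))
  · have h5 := congrArg (fun x : autC (zeroCode 127 T) => (x : Equiv.Perm (Fin 127))) hga
    simp only [Subgroup.coe_mul, InvMemClass.coe_inv, SubmonoidClass.coe_pow] at h5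
    rw [← h5]
    group

theorem rot_pow_val (k : ℕ) (j : Fin 127) : ((((finRotate 127) ^ k : Equiv.Perm (Fin 127)) j : Fin 127) : ℕ)
    = ((j : ℕ) + k) % 127 := by
  induction k with
  | zero => simp [Nat.mod_eq_of_lt j.isLt]
  | succ k ih =>
    rw [pow_succ' (finRotate 127) k, Equiv.Perm.mul_apply]
    generalize hy : ((finRotate 127) ^ k : Equiv.Perm (Fin 127)) j = y at ih
    by_cases hj : (y : ℕ) = 126
    · have hj' : y = Fin.last 126 := Fin.ext hj
      subst hj'
      rw [finRotate_last]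
      simp only [Fin.val_last] at ih
      change 0 = _
      omega
    · rw [coe_finRotate_of_ne_last (by intro h; apply hj; rw [h]; rfl)]
      have := y.isLt
      omega

theorem affine_form (π : Equiv.Perm (Fin 127)) (a : ℕ) (h : π⁻¹ * finRotate 127 * π = (finRotate 127) ^ a) :
    ∃ b e : ℕ, ¬ 127 ∣ b ∧ ∀ j : Fin 127, ((π j : Fin 127) : ℕ) = (e + b * (j : ℕ)) % 127 := by
  have hp : Nat.Prime 127 := by norm_num
  -- a is not divisible by 127
  have ha : ¬ 127 ∣ a := by
    rintro ⟨k, rfl⟩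
    have h1 : (finRotate 127) ^ (127 * k) = 1 := by
      rw [pow_mul]
      have := pow_orderOf_eq_one (finRotate 127)
      rw [orderOf_rot] at this
      rw [this, one_pow]
    rw [h1] at h
    have h2 : finRotate 127 = 1 := by
      have h3 : finRotate 127 = π * (π⁻¹ * finRotate 127 * π) * π⁻¹ := by group
      rw [h3, h]; group
    have h4 := orderOf_rot
    rw [h2, orderOf_one] at h4
    omega
  have hcop : Nat.Coprime a 127 := (Nat.Prime.coprime_iff_not_dvd hp).mpr ha |>.symm
  obtain ⟨b, hb⟩ := Nat.exists_mul_mod_eq_one_of_coprime hcop (by norm_num)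
  have hb' : a * b % 127 = 1 := hb.2
  have hstep : ∀ k : ℕ, ∀ j : Fin 127, π (((finRotate 127) ^ (a * k) : Equiv.Perm (Fin 127)) j)
      = ((finRotate 127) ^ k : Equiv.Perm (Fin 127)) (π j) := by
    intro k j
    have h1 : (finRotate 127) ^ (a * k) = π⁻¹ * (finRotate 127) ^ k * π := by
      rw [pow_mul, ← h]
      have h2 := conj_pow (a := π⁻¹) (b := finRotate 127) (i := k)
      rw [inv_inv] at h2
      exact h2
    rw [h1]
    simp
  refine ⟨b, (π 0 : Fin 127), ?_, ?_⟩
  · intro hd
    have : a * b % 127 = 0 := Nat.mod_eq_zero_of_dvd (Dvd.dvd.mul_left hd a)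
    omega
  · intro j
    have h1 := hstep (b * (j : ℕ)) 0
    have h2 : ((finRotate 127) ^ (a * (b * (j : ℕ))) : Equiv.Perm (Fin 127)) 0 = j := by
      apply Fin.ext
      rw [rot_pow_val]
      have h3 : a * (b * (j : ℕ)) % 127 = (j : ℕ) := by
        rw [← mul_assoc, Nat.mul_mod, hb', one_mul, Nat.mod_mod, Nat.mod_eq_of_lt j.isLt]
      simpa using h3
    rw [h2] at h1
    rw [h1, rot_pow_val]

/-- The multiplier statement: an equivalence gives `b` prime to 127 with `S^b ⊆ T`. -/
theorem exists_multiplier [DecidableEq K] {S T : Finset Kˣ} (hn : 127 + 1 = Fintype.card K)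
    (hS : ∀ x ∈ S, x ^ 2 ∈ S) (hT : ∀ x ∈ T, x ^ 2 ∈ T) (σ : Equiv.Perm (Fin 127))
    (h : ∀ c : Fin 127 → ZMod 2, c ∈ zeroCode 127 (S : Set Kˣ) ↔ (fun j => c (σ j)) ∈ zeroCode 127 (T : Set Kˣ)) :
    ∃ b : ℕ, ¬ 127 ∣ b ∧ ∀ x ∈ S, x ^ b ∈ T := by
  obtain ⟨π, hπ, a, ha⟩ := exists_affine hn σ h
  obtain ⟨b, e, hb, hj⟩ := affine_form π a ha
  refine ⟨b, hb, ?_⟩
  intro x hx
  have h1 := map_W_of_equiv hn S T hS hT π hπ
  have h2 : ev 127 x ∈ W 127 S := Submodule.subset_span ⟨x, hx, rfl⟩
  have h3 : permAlg (K := K) π (ev 127 x) ∈ W 127 T := by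
    rw [← h1]
    exact Submodule.mem_map_of_mem h2
  have h4 : permAlg (K := K) π (ev 127 x) = ((x : K) ^ e) • ev 127 (x ^ b) := by
    funext j
    rw [permAlg_apply]
    simp only [ev, Pi.smul_apply, smul_eq_mul, Units.val_pow_eq_pow_val]
    rw [hj j, ← pow_mul, ← pow_add]
    have h5 := pow_n_eq_one hn x
    have h6 : (x : K) ^ 127 = 1 := by
      rw [← Units.val_pow_eq_pow_val, h5]; rfl
    conv_rhs => rw [← Nat.mod_add_div (e + b * (j : ℕ)) 127, pow_add, pow_mul, h6, one_pow, mul_one]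
  rw [h4] at h3
  by_contra hxb
  have h7 := (mem_W_iff hn T _).mp h3 (x ^ b) hxb
  rw [hat_smul, hat_ev hn, if_pos rfl, mul_one] at h7
  exact (pow_ne_zero _ x.ne_zero) h7

end

end Pool.Agent.H523R2
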